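import Mathlib

/-!
Two-colour Ramsey numbers: basic facts, the binomial upper bound, a ratio bound in the style of
Erdos and Szemeredi, and a counting lemma for record values.
-/

namespace Pool.Agent.Lib.MP_05c1d7_co
open Finset

/-- The Ramsey number `R(s,t)`: the least `n` such that every graph on `n` vertices has an
`s`-clique or an independent `t`-set (the expression used in the frozen statement). -/
noncomputable def R (s t : ℕ) : ℕ :=
  sInf {n : ℕ | ∀ G : SimpleGraph (Fin n), ¬ G.CliqueFree s ∨ ¬ Gᶜ.CliqueFree t}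

/-- Every graph on `Fin n` has an `s`-clique or an independent `t`-set. -/
def Arr (n s t : ℕ) : Prop := ∀ G : SimpleGraph (Fin n), ¬ G.CliqueFree s ∨ ¬ Gᶜ.CliqueFree t

/-- The same property inside any finite vertex set of size at least `n`. -/
def PA (n s t : ℕ) : Prop := ∀ (V : Type) (G : SimpleGraph V) (A : Finset V), n ≤ A.card →
  (∃ K ⊆ A, G.IsNClique s K) ∨ (∃ K ⊆ A, Gᶜ.IsNClique t K)

lemma pa_of_arr {n s t : ℕ} (h : Arr n s t) : PA n s t := by
  classical
  intro V G A hA
  obtain ⟨e, he⟩ := Function.Embedding.exists_of_card_le_finset (α := Fin n) (s := A)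
    (by simpa using hA)
  have hsub : ∀ K : Finset (Fin n), K.map e ⊆ A := by
    intro K x hx
    obtain ⟨i, _, rfl⟩ := mem_map.1 hx
    exact he ⟨i, rfl⟩
  rcases h (G.comap e) with h1 | h1
  · left
    rw [SimpleGraph.CliqueFree] at h1
    push Not at h1
    obtain ⟨K, hK⟩ := h1
    refine ⟨K.map e, hsub K, ⟨?_, by rw [card_map]; exact hK.2⟩⟩
    intro x hx y hy hxy
    obtain ⟨i, hi, rfl⟩ := mem_map.1 (mem_coe.1 hx)
    obtain ⟨j, hj, rfl⟩ := mem_map.1 (mem_coe.1 hy)
    exact hK.1 (mem_coe.2 hi) (mem_coe.2 hj) (fun hij => hxy (by rw [hij]))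
  · right
    rw [SimpleGraph.CliqueFree] at h1
    push Not at h1
    obtain ⟨K, hK⟩ := h1
    refine ⟨K.map e, hsub K, ⟨?_, by rw [card_map]; exact hK.2⟩⟩
    intro x hx y hy hxy
    obtain ⟨i, hi, rfl⟩ := mem_map.1 (mem_coe.1 hx)
    obtain ⟨j, hj, rfl⟩ := mem_map.1 (mem_coe.1 hy)
    have := hK.1 (mem_coe.2 hi) (mem_coe.2 hj) (fun hij => hxy (by rw [hij]))
    rw [SimpleGraph.compl_adj] at this ⊢
    exact ⟨hxy, this.2⟩

lemma arr_of_pa {n m s t : ℕ} (h : PA n s t) (hm : n ≤ m) : Arr m s t := by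
  intro G
  rcases h (Fin m) G univ (by simpa using hm) with ⟨K, _, hK⟩ | ⟨K, _, hK⟩
  · left; exact fun hf => hf K hK
  · right; exact fun hf => hf K hK

lemma pa_choose (s t : ℕ) : PA ((s + t).choose s) (s + 1) (t + 1) := by
  classical
  induction s generalizing t with
  | zero =>
    intro V G A hA
    have : A.Nonempty := card_pos.1 (by simpa using hA)
    obtain ⟨v, hv⟩ := this
    left
    exact ⟨{v}, by simpa using hv, by simp⟩
  | succ s ihs =>
    induction t with
    | zero =>
      intro V G A hA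
      have : A.Nonempty := card_pos.1 (by simpa using hA)
      obtain ⟨v, hv⟩ := this
      right
      exact ⟨{v}, by simpa using hv, by simp⟩
    | succ t iht =>
      intro V G A hA
      have hch : (s + 1 + (t + 1)).choose (s + 1)
          = (s + (t + 1)).choose s + (s + 1 + t).choose (s + 1) := by
        have e1 : s + 1 + (t + 1) = (s + (t + 1)) + 1 := by ring
        have e2 : s + 1 + t = s + (t + 1) := by ring
        rw [e1, e2, Nat.choose_succ_succ]
      have hpos : 0 < (s + (t + 1)).choose s := Nat.choose_pos (by omega)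
      have : A.Nonempty := card_pos.1 (by omega)
      obtain ⟨v, hv⟩ := this
      have hsplit := card_filter_add_card_filter_not (s := A.erase v) (fun u => G.Adj v u)
      rw [card_erase_of_mem hv] at hsplit
      by_cases h1 : (s + (t + 1)).choose s ≤ ((A.erase v).filter (fun u => G.Adj v u)).card
      · rcases ihs (t + 1) V G _ h1 with ⟨K, hK, hc⟩ | ⟨K, hK, hc⟩
        · left
          refine ⟨insert v K, ?_, hc.insert (fun b hb => (mem_filter.1 (hK hb)).2)⟩
          intro x hx
          rcases mem_insert.1 hx with rfl | hx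
          · exact hv
          · exact mem_of_mem_erase (mem_filter.1 (hK hx)).1
        · right
          exact ⟨K, fun x hx => mem_of_mem_erase (mem_filter.1 (hK hx)).1, hc⟩
      · have h2 : (s + 1 + t).choose (s + 1)
            ≤ ((A.erase v).filter (fun u => ¬ G.Adj v u)).card := by omega
        rcases iht V G _ h2 with ⟨K, hK, hc⟩ | ⟨K, hK, hc⟩
        · left
          exact ⟨K, fun x hx => mem_of_mem_erase (mem_filter.1 (hK hx)).1, hc⟩
        · right
          refine ⟨insert v K, ?_, hc.insert (fun b hb => ?_)⟩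
          · intro x hx
            rcases mem_insert.1 hx with rfl | hx
            · exact hv
            · exact mem_of_mem_erase (mem_filter.1 (hK hx)).1
          · have := mem_filter.1 (hK hb)
            rw [SimpleGraph.compl_adj]
            exact ⟨(ne_of_mem_erase this.1).symm, this.2⟩

lemma R_le_of_arr {n s t : ℕ} (h : Arr n s t) : R s t ≤ n := Nat.sInf_le h

lemma R_le_choose (s t : ℕ) : R (s + 1) (t + 1) ≤ (s + t).choose s :=
  R_le_of_arr (arr_of_pa (pa_choose s t) le_rfl)

lemma arr_R {s t : ℕ} (hs : 1 ≤ s) (ht : 1 ≤ t) : Arr (R s t) s t := by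
  obtain ⟨s, rfl⟩ : ∃ u, s = u + 1 := ⟨s - 1, by omega⟩
  obtain ⟨t, rfl⟩ : ∃ u, t = u + 1 := ⟨t - 1, by omega⟩
  exact Nat.sInf_mem (s := {n : ℕ | ∀ G : SimpleGraph (Fin n),
    ¬ G.CliqueFree (s + 1) ∨ ¬ Gᶜ.CliqueFree (t + 1)}) ⟨_, arr_of_pa (pa_choose s t) le_rfl⟩

lemma lt_R_of_not_arr {n s t : ℕ} (hs : 1 ≤ s) (ht : 1 ≤ t) (h : ¬ Arr n s t) : n < R s t := by
  by_contra hn
  exact h (arr_of_pa (pa_of_arr (arr_R hs ht)) (not_lt.1 hn))

lemma not_arr_of_lt {n s t : ℕ} (h : n < R s t) : ¬ Arr n s t :=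
  fun ha => absurd (R_le_of_arr ha) (not_le.2 h)

lemma R_mono_right {s t t' : ℕ} (hs : 1 ≤ s) (ht : 1 ≤ t) (h : t ≤ t') : R s t ≤ R s t' := by
  apply R_le_of_arr
  intro G
  rcases arr_R hs (ht.trans h) G with h1 | h1
  · exact Or.inl h1
  · exact Or.inr (fun hf => h1 (hf.mono h))

lemma R_pos {s t : ℕ} (hs : 1 ≤ s) (ht : 1 ≤ t) : 0 < R s t := by
  apply lt_R_of_not_arr hs ht
  intro h
  rcases h ⊥ with h1 | h1
  · exact h1 (SimpleGraph.cliqueFree_of_card_lt (by rw [Fintype.card_fin]; omega))
  · exact h1 (SimpleGraph.cliqueFree_of_card_lt (by rw [Fintype.card_fin]; omega))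

/-- The ratio bound on the level of graphs. -/
lemma ratio_graph {d e s t j n : ℕ} (hd : PA d s t) (he : PA e (s + 1) (j + 1))
    (h : ¬ Arr n (s + 1) t) :
    (j + 1) * n ≤ (j + 1) * (t + e * ∑ i ∈ range (j + 1), t.choose i) + t * d := by
  classical
  unfold Arr at h
  push Not at h
  obtain ⟨G, hr, hb⟩ := h
  obtain ⟨B, hB, hmax⟩ := exists_max_image
    ((univ : Finset (Finset (Fin n))).filter (fun K : Finset (Fin n) => Gᶜ.IsClique (K : Set (Fin n)))) card
    ⟨∅, by simp⟩
  have hBc : Gᶜ.IsClique (B : Set (Fin n)) := (mem_filter.1 hB).2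
  have hBt : B.card ≤ t := by
    by_contra hlt
    obtain ⟨K, hK, hc⟩ := exists_subset_card_eq (s := B) (n := t) (by omega)
    exact hb K ⟨hBc.subset (coe_subset.2 hK), hc⟩
  have hdeg : ∀ u : Fin n, (univ.filter (fun v => G.Adj v u)).card ≤ d := by
    intro u
    by_contra hlt
    rcases hd (Fin n) G _ (le_of_lt (not_le.1 hlt)) with ⟨K, hK, hc⟩ | ⟨K, _, hc⟩
    · exact hr _ (hc.insert (a := u) (fun b hb' => ((mem_filter.1 (hK hb')).2).symm))
    · exact hb K hc
  set P : Fin n → Finset (Fin n) := fun v => B.filter (fun u => G.Adj v u) with hP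
  have hsum : ∑ v, (P v).card ≤ t * d := by
    calc ∑ v, (P v).card = ∑ v, ∑ u ∈ B, if G.Adj v u then 1 else 0 := by
          refine sum_congr rfl (fun v _ => ?_)
          rw [hP, card_filter]
      _ = ∑ u ∈ B, ∑ v, if G.Adj v u then 1 else 0 := sum_comm
      _ ≤ ∑ _u ∈ B, d := by
          refine sum_le_sum (fun u _ => ?_)
          rw [← card_filter]
          exact hdeg u
      _ = B.card * d := by simp
      _ ≤ t * d := Nat.mul_le_mul_right _ hBt
  set H := univ.filter (fun v => j < (P v).card) with hH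
  set L := univ.filter (fun v => v ∉ B ∧ (P v).card ≤ j) with hL
  have hHc : (j + 1) * H.card ≤ t * d := by
    calc (j + 1) * H.card = ∑ _v ∈ H, (j + 1) := by simp [mul_comm]
      _ ≤ ∑ v ∈ H, (P v).card := sum_le_sum (fun v hv => (mem_filter.1 hv).2)
      _ ≤ ∑ v, (P v).card := sum_le_sum_of_subset (subset_univ _)
      _ ≤ t * d := hsum
  set T := (range (j + 1)).biUnion (fun i => powersetCard i B) with hT
  have hTc : T.card ≤ ∑ i ∈ range (j + 1), t.choose i := by
    refine card_biUnion_le.trans (sum_le_sum (fun i _ => ?_))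
    rw [card_powersetCard]
    exact Nat.choose_le_choose _ hBt
  have hLc : L.card ≤ e * T.card := by
    refine card_le_mul_card_image_of_maps_to (f := P) ?_ e ?_
    · intro v hv
      refine mem_biUnion.2 ⟨(P v).card, mem_range.2 ?_, mem_powersetCard.2 ⟨filter_subset _ _, rfl⟩⟩
      have := (mem_filter.1 hv).2.2
      omega
    · intro Q hQ
      by_contra hlt
      obtain ⟨i, hi, hQi⟩ := mem_biUnion.1 hQ
      have hQB := (mem_powersetCard.1 hQi).1
      have hQc : Q.card ≤ j := by
        have := (mem_powersetCard.1 hQi).2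
        have := mem_range.1 hi
        omega
      rcases he (Fin n) G _ (le_of_lt (not_le.1 hlt)) with ⟨K, _, hc⟩ | ⟨K, hK, hc⟩
      · exact hr K hc
      · have hKB : ∀ v ∈ K, v ∉ B ∧ P v = Q := fun v hv =>
          ⟨(mem_filter.1 (mem_filter.1 (hK hv)).1).2.1, (mem_filter.1 (hK hv)).2⟩
        have hcross : ∀ v ∈ K, ∀ u ∈ B \ Q, Gᶜ.Adj v u := by
          intro v hv u hu
          rw [SimpleGraph.compl_adj]
          refine ⟨fun huv => (hKB v hv).1 (huv ▸ (mem_sdiff.1 hu).1), fun hadj => ?_⟩
          apply (mem_sdiff.1 hu).2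
          rw [← (hKB v hv).2]
          exact mem_filter.2 ⟨(mem_sdiff.1 hu).1, hadj⟩
        have hcl : Gᶜ.IsClique ((K ∪ (B \ Q) : Finset (Fin n)) : Set (Fin n)) := by
          intro x hx y hy hxy
          rcases mem_union.1 (mem_coe.1 hx) with hx | hx <;>
            rcases mem_union.1 (mem_coe.1 hy) with hy | hy
          · exact hc.1 (mem_coe.2 hx) (mem_coe.2 hy) hxy
          · exact hcross x hx y hy
          · exact (hcross y hy x hx).symm
          · exact hBc (mem_coe.2 (mem_sdiff.1 hx).1) (mem_coe.2 (mem_sdiff.1 hy).1) hxy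
        have h1 := hmax _ (mem_filter.2 ⟨mem_univ _, hcl⟩)
        have hdis : Disjoint K (B \ Q) :=
          disjoint_left.2 (fun v hv hv' => (hKB v hv).1 (mem_sdiff.1 hv').1)
        rw [card_union_of_disjoint hdis, card_sdiff_of_subset hQB, hc.2] at h1
        have := card_le_card hQB
        omega
  have hcover : n ≤ B.card + L.card + H.card := by
    have : (univ : Finset (Fin n)) ⊆ B ∪ L ∪ H := by
      intro v _
      by_cases h1 : v ∈ B
      · simp [h1]
      · by_cases h2 : (P v).card ≤ j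
        · exact mem_union_left _ (mem_union_right _ (mem_filter.2 ⟨mem_univ _, h1, h2⟩))
        · exact mem_union_right _ (mem_filter.2 ⟨mem_univ _, not_le.1 h2⟩)
    have h2 := card_le_card this
    have h3 := card_union_le (B ∪ L) H
    have h4 := card_union_le B L
    simp only [card_univ, Fintype.card_fin] at h2
    omega
  have h5 : L.card ≤ e * ∑ i ∈ range (j + 1), t.choose i :=
    hLc.trans (Nat.mul_le_mul_left _ hTc)
  calc (j + 1) * n ≤ (j + 1) * (B.card + L.card + H.card) := Nat.mul_le_mul_left _ hcover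
    _ = (j + 1) * (B.card + L.card) + (j + 1) * H.card := by ring
    _ ≤ _ := Nat.add_le_add (Nat.mul_le_mul_left _ (Nat.add_le_add hBt h5)) hHc

/-- The ratio bound for Ramsey numbers. -/
lemma ratio_R {s t : ℕ} (j : ℕ) (hs : 1 ≤ s) (ht : 1 ≤ t) :
    (j + 1) * R (s + 1) t ≤
      (j + 1) * (1 + t + (s + j).choose s * ∑ i ∈ range (j + 1), t.choose i) + t * R s t := by
  have hpos := R_pos (s := s + 1) (t := t) (by omega) ht
  have h := ratio_graph (pa_of_arr (arr_R hs ht)) (pa_choose s j)
    (not_arr_of_lt (n := R (s + 1) t - 1) (s := s + 1) (t := t) (by omega))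
  have e1 : R (s + 1) t = (R (s + 1) t - 1) + 1 := by omega
  rw [e1]
  nlinarith

/-- If a sequence grows by a factor at most `κ` in each step, it needs many record values. -/
lemma records (f : ℕ → ℕ) (a S M κ : ℕ) (hκ : 1 ≤ κ) (h0 : ∀ s, 1 ≤ s → s ≤ a → f s ≤ M)
    (ha : 1 ≤ a)
    (hstep : ∀ s g, a ≤ s → s + 1 ≤ S → M ≤ g → f s ≤ g → f (s + 1) ≤ κ * g)
    (p : ℕ → Prop) [DecidablePred p]
    (hp : ∀ s, 1 ≤ s → s ≤ S → (∀ s', 1 ≤ s' → s' ≤ s → f s' ≤ f s) → p s) :
    ∀ s, s ≤ S → ∀ s', 1 ≤ s' → s' ≤ s → f s' ≤ M * κ ^ ((Icc 1 s).filter p).card := by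
  intro s
  induction s with
  | zero => intro _ s' h1 h2; omega
  | succ s ih =>
    intro hs s' h1 h2
    have hmono : ((Icc 1 s).filter p).card ≤ ((Icc 1 (s + 1)).filter p).card :=
      card_le_card (filter_subset_filter _ (Icc_subset_Icc_right (by omega)))
    have hpw : M * κ ^ ((Icc 1 s).filter p).card ≤ M * κ ^ ((Icc 1 (s + 1)).filter p).card :=
      Nat.mul_le_mul_left _ (Nat.pow_le_pow_right hκ hmono)
    have hM : ∀ c, M ≤ M * κ ^ c := fun c => Nat.le_mul_of_pos_right _ (by positivity)
    by_cases hlt : s' ≤ s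
    · exact (ih (by omega) s' h1 hlt).trans hpw
    · obtain rfl : s' = s + 1 := by omega
      by_cases hsa : s + 1 ≤ a
      · exact (h0 _ h1 hsa).trans (hM _)
      · by_cases hrec : ∀ s', 1 ≤ s' → s' ≤ s + 1 → f s' ≤ f (s + 1)
        · have hps := hp (s + 1) h1 hs hrec
          have hc : ((Icc 1 (s + 1)).filter p).card = ((Icc 1 s).filter p).card + 1 := by
            have : (Icc 1 (s + 1)).filter p = insert (s + 1) ((Icc 1 s).filter p) := by
              ext x
              simp only [mem_filter, mem_Icc, mem_insert]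
              constructor
              · rintro ⟨⟨h3, h4⟩, h5⟩
                by_cases hx : x = s + 1
                · exact Or.inl hx
                · exact Or.inr ⟨⟨h3, by omega⟩, h5⟩
              · rintro (rfl | ⟨⟨h3, h4⟩, h5⟩)
                · exact ⟨⟨h1, le_rfl⟩, hps⟩
                · exact ⟨⟨h3, by omega⟩, h5⟩
            rw [this, card_insert_of_notMem (by simp)]
          rw [hc, pow_succ]
          have := hstep s _ (by omega) hs (hM ((Icc 1 s).filter p).card)
            (ih (by omega) s (by omega) le_rfl)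
          calc f (s + 1) ≤ κ * (M * κ ^ ((Icc 1 s).filter p).card) := this
            _ = _ := by ring
        · push Not at hrec
          obtain ⟨u, hu1, hu2, hu3⟩ := hrec
          have hus : u ≤ s := by
            by_contra hc
            obtain rfl : u = s + 1 := by omega
            exact lt_irrefl _ hu3
          exact (le_of_lt hu3).trans ((ih (by omega) u hu1 hus).trans hpw)

/-- A bound for initial sums of binomial coefficients. -/
lemma sum_choose_le (N j y S : ℕ) (hy : 1 ≤ y) (hN : N ≤ S * y) :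
    ∑ i ∈ range (j + 1), N.choose i ≤ y ^ j * 3 ^ S := by
  have hy' : (1 : ℝ) ≤ y := by exact_mod_cast hy
  have hy0 : (0 : ℝ) < y := by linarith
  have key : ((∑ i ∈ range (j + 1), N.choose i : ℕ) : ℝ) ≤ (y : ℝ) ^ j * 3 ^ S := by
    push_cast
    have h1 : ∑ i ∈ range (j + 1), (N.choose i : ℝ)
        ≤ (y : ℝ) ^ j * ∑ i ∈ range (j + 1), (N.choose i : ℝ) * (1 / y) ^ i := by
      rw [mul_sum]
      refine sum_le_sum (fun i hi => ?_)
      have hi' : i ≤ j := by have := mem_range.1 hi; omega
      have : (1 : ℝ) ≤ (y : ℝ) ^ j * (1 / y) ^ i := by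
        rw [one_div, inv_pow, ← div_eq_mul_inv, le_div_iff₀ (by positivity), one_mul]
        exact pow_le_pow_right₀ hy' hi'
      have h0 : (0 : ℝ) ≤ N.choose i := by positivity
      nlinarith
    have h2 : ∑ i ∈ range (j + 1), (N.choose i : ℝ) * (1 / y) ^ i
        ≤ ∑ i ∈ range (N + 1), (N.choose i : ℝ) * (1 / y) ^ i := by
      rcases le_total j N with h | h
      · exact sum_le_sum_of_subset_of_nonneg (range_mono (by omega)) (fun _ _ _ => by positivity)
      · apply le_of_eq
        symm
        apply sum_subset (range_mono (by omega))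
        intro i _ hi
        have : N < i := by simp at hi; omega
        simp [Nat.choose_eq_zero_of_lt this]
    have h3 : ∑ i ∈ range (N + 1), (N.choose i : ℝ) * (1 / y) ^ i = (1 / y + 1) ^ N := by
      rw [add_pow]
      refine sum_congr rfl (fun i _ => ?_)
      ring
    have h4 : ((1 : ℝ) / y + 1) ^ N ≤ 3 ^ S := by
      calc ((1 : ℝ) / y + 1) ^ N ≤ (Real.exp (1 / y)) ^ N :=
            pow_le_pow_left₀ (by positivity) (Real.add_one_le_exp _) _
        _ = Real.exp (N * (1 / y)) := by rw [Real.exp_nat_mul]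
        _ ≤ Real.exp (S * 1) := by
            apply Real.exp_le_exp.2
            rw [mul_one_div, div_le_iff₀ hy0, mul_one]
            exact_mod_cast hN
        _ = Real.exp 1 ^ S := by rw [Real.exp_nat_mul]
        _ ≤ 3 ^ S := pow_le_pow_left₀ (by positivity)
            (by have := Real.exp_one_lt_d9; linarith) _
    calc _ ≤ _ := h1
      _ ≤ (y : ℝ) ^ j * 3 ^ S := by
        apply mul_le_mul_of_nonneg_left _ (by positivity)
        exact h2.trans (h3 ▸ h4)
  exact_mod_cast key

end Pool.Agent.Lib.MP_05c1d7_co
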