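import Pool.Agent.Lib.MP_05c1d7_co.Main

/-!
A ratio bound in the second argument by dependent random choice, uniform in both arguments.
-/

namespace Pool.Agent.Lib.MP_05c1d7_co
open Finset

lemma card_tuples {n r : ℕ} (S : Finset (Fin n)) :
    ((univ : Finset (Fin r → Fin n)).filter (fun T => ∀ i, T i ∈ S)).card = S.card ^ r := by
  classical
  rw [← Fintype.card_piFinset_const S r]
  congr 1
  ext T
  simp [Fintype.mem_piFinset]

/-- Dependent random choice on the level of graphs. -/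
lemma drc_graph {n t a b A B R0 : ℕ} (r : ℕ) (ha : 1 ≤ a)
    (hA : PA A a (t + 1)) (hB : PA B b (t + 1)) (h0 : PA R0 (a + b) t)
    (h : ¬ Arr n (a + b) (t + 1)) :
    n * (n - R0) ^ r ≤ n ^ r * A + n ^ a * B ^ r := by
  classical
  unfold Arr at h
  push Not at h
  obtain ⟨G, hr, hb⟩ := h
  rcases Nat.eq_zero_or_pos n with rfl | hn
  · simp
  have hdeg : ∀ v : Fin n, n - R0 ≤ (univ.filter (fun u => G.Adj u v)).card := by
    intro v
    by_contra hlt
    have hsplit := card_filter_add_card_filter_not (s := (univ : Finset (Fin n)).erase v)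
      (fun u => G.Adj u v)
    rw [card_erase_of_mem (mem_univ v), card_univ, Fintype.card_fin] at hsplit
    have hle : ((univ.erase v).filter (fun u => G.Adj u v)).card
        ≤ (univ.filter (fun u => G.Adj u v)).card :=
      card_le_card (filter_subset_filter _ (erase_subset _ _))
    rcases h0 (Fin n) G ((univ.erase v).filter (fun u => ¬ G.Adj u v)) (by omega) with
      ⟨K, _, hc⟩ | ⟨K, hK, hc⟩
    · exact hr K hc
    · refine hb _ (hc.insert (a := v) (fun x hx => ?_))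
      have := mem_filter.1 (hK hx)
      rw [SimpleGraph.compl_adj]
      exact ⟨(ne_of_mem_erase this.1).symm, fun hh => this.2 hh.symm⟩
  set U : (Fin r → Fin n) → Finset (Fin n) :=
    fun T => univ.filter (fun v => ∀ i, G.Adj (T i) v) with hU
  set C : Finset (Finset (Fin n)) :=
    (powersetCard a univ).filter (fun K => G.IsNClique a K) with hC
  have hCc : C.card ≤ n ^ a := by
    calc C.card ≤ (powersetCard a (univ : Finset (Fin n))).card := card_filter_le _ _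
      _ = n.choose a := by simp
      _ ≤ n ^ a := Nat.choose_le_pow _ _
  have hlow : n * (n - R0) ^ r ≤ ∑ T, (U T).card := by
    calc n * (n - R0) ^ r = ∑ _v : Fin n, (n - R0) ^ r := by simp
      _ ≤ ∑ v : Fin n, (univ.filter (fun u => G.Adj u v)).card ^ r :=
          sum_le_sum (fun v _ => Nat.pow_le_pow_left (hdeg v) _)
      _ = ∑ v : Fin n, ∑ T : Fin r → Fin n, if ∀ i, G.Adj (T i) v then 1 else 0 := by
          refine sum_congr rfl (fun v _ => ?_)
          rw [← card_tuples, card_filter]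
          simp
      _ = ∑ T : Fin r → Fin n, ∑ v : Fin n, if ∀ i, G.Adj (T i) v then 1 else 0 := sum_comm
      _ = ∑ T, (U T).card := by
          refine sum_congr rfl (fun T _ => ?_)
          rw [hU, card_filter]
  have hf : ∀ K : Finset (Fin n), ∃ x : Fin n, K.Nonempty → x ∈ K := by
    intro K
    by_cases hK : K.Nonempty
    · obtain ⟨x, hx⟩ := hK
      exact ⟨x, fun _ => hx⟩
    · exact ⟨⟨0, hn⟩, fun h' => absurd h' hK⟩
  choose f hf using hf
  have hT : ∀ T, (U T).card ≤ A + (C.filter (fun K => K ⊆ U T)).card := by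
    intro T
    by_contra hlt
    have h1 := le_card_sdiff ((C.filter (fun K => K ⊆ U T)).image f) (U T)
    have h2 := card_image_le (s := C.filter (fun K => K ⊆ U T)) (f := f)
    rcases hA (Fin n) G (U T \ (C.filter (fun K => K ⊆ U T)).image f) (by omega) with
      ⟨K, hK, hc⟩ | ⟨K, _, hc⟩
    · have hKn : K.Nonempty := card_pos.1 (by rw [hc.2]; omega)
      apply (mem_sdiff.1 (hK (hf K hKn))).2
      refine mem_image_of_mem f (mem_filter.2 ⟨mem_filter.2 ⟨?_, hc⟩, hK.trans sdiff_subset⟩)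
      exact mem_powersetCard.2 ⟨subset_univ _, hc.2⟩
    · exact hb K hc
  have hK : ∀ K ∈ C, (univ.filter (fun x => ∀ v ∈ K, G.Adj x v)).card ≤ B := by
    intro K hK
    have hc := (mem_filter.1 hK).2
    by_contra hlt
    rcases hB (Fin n) G _ (le_of_lt (not_le.1 hlt)) with ⟨K', hK', hc'⟩ | ⟨K', _, hc'⟩
    · have hcross : ∀ x ∈ K', ∀ v ∈ K, G.Adj x v := fun x hx => (mem_filter.1 (hK' hx)).2
      have hdis : Disjoint K K' :=
        disjoint_left.2 (fun v hv hv' => (hcross v hv' v hv).ne rfl)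
      refine hr (K ∪ K') ⟨?_, by rw [card_union_of_disjoint hdis, hc.2, hc'.2]⟩
      intro x hx y hy hxy
      rcases mem_union.1 (mem_coe.1 hx) with hx | hx <;>
        rcases mem_union.1 (mem_coe.1 hy) with hy | hy
      · exact hc.1 (mem_coe.2 hx) (mem_coe.2 hy) hxy
      · exact (hcross y hy x hx).symm
      · exact hcross x hx y hy
      · exact hc'.1 (mem_coe.2 hx) (mem_coe.2 hy) hxy
    · exact hb K' hc'
  have hbad : ∑ T, (C.filter (fun K => K ⊆ U T)).card ≤ n ^ a * B ^ r := by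
    calc ∑ T, (C.filter (fun K => K ⊆ U T)).card
        = ∑ T : Fin r → Fin n, ∑ K ∈ C, if K ⊆ U T then 1 else 0 := by
          refine sum_congr rfl (fun T _ => ?_)
          rw [card_filter]
      _ = ∑ K ∈ C, ∑ T : Fin r → Fin n, if K ⊆ U T then 1 else 0 := sum_comm
      _ = ∑ K ∈ C, (univ.filter (fun x => ∀ v ∈ K, G.Adj x v)).card ^ r := by
          refine sum_congr rfl (fun K _ => ?_)
          rw [← card_tuples, ← card_filter]
          congr 1
          ext T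
          simp only [hU, mem_filter, mem_univ, true_and, subset_iff]
          exact ⟨fun h i v hv => h hv i, fun h v hv i => h i v hv⟩
      _ ≤ ∑ _K ∈ C, B ^ r := sum_le_sum (fun K hK' => Nat.pow_le_pow_left (hK K hK') _)
      _ = C.card * B ^ r := by simp
      _ ≤ _ := Nat.mul_le_mul_right _ hCc
  calc n * (n - R0) ^ r ≤ ∑ T, (U T).card := hlow
    _ ≤ ∑ T : Fin r → Fin n, (A + (C.filter (fun K => K ⊆ U T)).card) :=
        sum_le_sum (fun T _ => hT T)
    _ = n ^ r * A + ∑ T, (C.filter (fun K => K ⊆ U T)).card := by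
        rw [sum_add_distrib]; simp
    _ ≤ _ := Nat.add_le_add_left hbad _

/-- Dependent random choice on the level of Ramsey numbers. -/
lemma drc_R {t a b n : ℕ} (r : ℕ) (ha : 1 ≤ a) (hb : 1 ≤ b) (ht : 1 ≤ t)
    (hn : n + 1 = R (a + b) (t + 1)) :
    n * (n - R (a + b) t) ^ r ≤ n ^ r * R a (t + 1) + n ^ a * R b (t + 1) ^ r :=
  drc_graph r ha (pa_of_arr (arr_R ha (by omega))) (pa_of_arr (arr_R hb (by omega)))
    (pa_of_arr (arr_R (by omega) ht)) (not_arr_of_lt (by omega))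

lemma key_step {n d A B a r w e x y : ℕ} (h : n * d ^ r ≤ n ^ r * A + n ^ a * B ^ r)
    (he : 2 ^ e ≤ n) (hA : A ≤ 2 ^ x) (hB : B ≤ 2 ^ y) (k : ℕ) (har : a + k = r + 1) (hr : 1 ≤ r)
    (c1 : 1 + w * r + x ≤ e) (c2 : 1 + w * r + r * y ≤ e * k) : d * 2 ^ w ≤ n := by
  by_contra hlt
  have hn : 0 < n := lt_of_lt_of_le (by positivity) he
  have h1 : n ^ r < (d * 2 ^ w) ^ r := Nat.pow_lt_pow_left (not_le.1 hlt) (by omega)
  have h2 : n * n ^ r < n * d ^ r * 2 ^ (w * r) := by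
    rw [mul_pow, ← pow_mul] at h1
    rw [mul_assoc]
    exact Nat.mul_lt_mul_of_pos_left h1 hn
  have h3 : 2 * (n ^ r * A * 2 ^ (w * r)) ≤ n * n ^ r := by
    calc 2 * (n ^ r * A * 2 ^ (w * r)) ≤ 2 * (n ^ r * 2 ^ x * 2 ^ (w * r)) := by gcongr
      _ = 2 ^ (1 + w * r + x) * n ^ r := by ring
      _ ≤ 2 ^ e * n ^ r := Nat.mul_le_mul_right _ (Nat.pow_le_pow_right (by norm_num) c1)
      _ ≤ n * n ^ r := Nat.mul_le_mul_right _ he
  have h4 : 2 * (n ^ a * B ^ r * 2 ^ (w * r)) ≤ n * n ^ r := by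
    calc 2 * (n ^ a * B ^ r * 2 ^ (w * r)) ≤ 2 * (n ^ a * (2 ^ y) ^ r * 2 ^ (w * r)) := by gcongr
      _ = n ^ a * 2 ^ (1 + w * r + r * y) := by rw [← pow_mul]; ring
      _ ≤ n ^ a * 2 ^ (e * k) := Nat.mul_le_mul_left _ (Nat.pow_le_pow_right (by norm_num) c2)
      _ = n ^ a * (2 ^ e) ^ k := by rw [← pow_mul]
      _ ≤ n ^ a * n ^ k := Nat.mul_le_mul_left _ (Nat.pow_le_pow_left he _)
      _ = n * n ^ r := by rw [← pow_add, har]; ring
  have h5 : n * d ^ r * 2 ^ (w * r) ≤ (n ^ r * A + n ^ a * B ^ r) * 2 ^ (w * r) :=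
    Nat.mul_le_mul_right _ h
  rw [add_mul] at h5
  omega

lemma R_upper {u t s N L : ℕ} (hu : u + t ≤ N) (hN : N < 2 ^ (L + 1) * s) :
    R (u + 1) (t + 1) ≤ 2 ^ ((L + 1) * u + 2 * s) := by
  have b1 := sum_choose_le N u (2 ^ (L + 1)) s Nat.one_le_two_pow (by rw [mul_comm]; omega)
  have b3 : 3 ^ s ≤ (2 ^ 2) ^ s := Nat.pow_le_pow_left (by norm_num) _
  calc R (u + 1) (t + 1) ≤ (u + t).choose u := R_le_choose u t
    _ ≤ N.choose u := Nat.choose_le_choose _ hu
    _ ≤ ∑ i ∈ Finset.range (u + 1), N.choose i :=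
        Finset.single_le_sum (f := fun i => N.choose i) (fun _ _ => Nat.zero_le _)
          (Finset.self_mem_range_succ u)
    _ ≤ (2 ^ (L + 1)) ^ u * (2 ^ 2) ^ s := b1.trans (Nat.mul_le_mul_left _ b3)
    _ = 2 ^ ((L + 1) * u + 2 * s) := by rw [← pow_mul, ← pow_mul, ← pow_add]

lemma numerics_u {M L P q u : ℕ} (hM : 1 ≤ M) (hP : 1 ≤ P) (hq : L < M * (q + 1))
    (hqP : q ≤ 17 * P) (hu2 : u * L ≤ 17 * (2 * M + 1) * P + L) :
    L ≤ 18 * (M * P) ∧ u * L ≤ 69 * (M * P) := by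
  have h1 : M * (q + 1) ≤ M * (18 * P) := Nat.mul_le_mul_left _ (by omega)
  have h2 : P ≤ M * P := Nat.le_mul_of_pos_left _ hM
  have h3 : M * (18 * P) = 18 * (M * P) := by ring
  have h4 : 17 * (2 * M + 1) * P = 34 * (M * P) + 17 * P := by ring
  omega

lemma numerics_one {M s L P q w e k u : ℕ} (hM : 1 ≤ M) (hs : 1 ≤ s) (hsP : s ≤ P) (hL : 1 ≤ L)
    (hw : w + q = L) (hq : L < M * (q + 1)) (hK : 384 * M ^ 2 * P ≤ L * s)
    (he : e + 14 * P + L = s * L) (hk2 : 2 * M * k ≤ s + 2 * M)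
    (hL1 : L ≤ 18 * (M * P)) (hu : u * L ≤ 69 * (M * P)) :
    1 + w * (s + k) + ((L + 1) * u + 2 * s) ≤ e := by
  have a0 : M * P ≤ M * (M * P) := Nat.le_mul_of_pos_left _ hM
  have a1 : M * 1 ≤ M * P := Nat.mul_le_mul_left _ (by omega)
  have a2 : M * s ≤ M * P := Nat.mul_le_mul_left _ hsP
  have a3 : M * L ≤ M * (18 * (M * P)) := Nat.mul_le_mul_left _ hL1
  have a4 : u * 1 ≤ u * L := Nat.mul_le_mul_left _ hL
  have a5 : M * ((L + 1) * u) ≤ M * (138 * (M * P)) := by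
    apply Nat.mul_le_mul_left
    have : (L + 1) * u = u * L + u * 1 := by ring
    omega
  have a6 : L * s ≤ M * (q + 1) * s := Nat.mul_le_mul_right _ hq.le
  have a7 : w * (2 * M * k) ≤ L * (s + 2 * M) := Nat.mul_le_mul (by omega) hk2
  have a8 : M * (w * s) + M * (q * s) = M * (L * s) := by rw [← hw]; ring
  have a9 : M * e + 14 * (M * P) + M * L = M * (L * s) := by
    have : M * (e + 14 * P + L) = M * (s * L) := by rw [he]
    linarith
  apply le_of_mul_le_mul_left (a := 2 * M) _ (by omega)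
  nlinarith

lemma numerics_two {M s L P q w e k u v : ℕ} (hsP : s ≤ P)
    (hw : w + q = L) (he : e + 14 * P + L = s * L) (hk1 : s < 2 * M * k)
    (hu1 : 17 * (2 * M + 1) * P < u * L) (hs : s = u + v + 2) :
    1 + w * (s + k) + (s + k) * ((L + 1) * v + 2 * s) ≤ e * (v + 2 + k) := by
  have a1 : w + ((L + 1) * v + 2 * s) + u * L ≤ e + 17 * P := by
    have : s * L = u * L + v * L + 2 * L := by rw [hs]; ring
    have : (L + 1) * v = v * L + v := by ring
    omega
  have a2 : (s + k) * (w + ((L + 1) * v + 2 * s) + u * L) ≤ (s + k) * (e + 17 * P) :=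
    Nat.mul_le_mul_left _ a1
  have a3 : e * u + u * L ≤ s * (u * L) := by
    have : (e + L) * u ≤ s * L * u := Nat.mul_le_mul_right _ (by omega)
    linarith
  have a4 : (s + k) * (17 * P) ≤ (2 * M + 1) * k * (17 * P) := by
    apply Nat.mul_le_mul_right
    have : (2 * M + 1) * k = 2 * M * k + k := by ring
    omega
  have a5 : k * (17 * (2 * M + 1) * P) ≤ k * (u * L) := Nat.mul_le_mul_left _ hu1.le
  have a6 : e * (v + 2 + k) + e * u = (s + k) * e := by rw [hs]; ring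
  have a7 : 1 ≤ u * L := by omega
  nlinarith

/-- The ratio bound with integer parameters. -/
lemma ratio_nat {M s t L b q w n : ℕ} (hM : 1 ≤ M) (hs : 2 ≤ s) (hN : 2 ^ L * s ≤ s + t + 1)
    (hN' : s + t + 1 < 2 ^ (L + 1) * s) (hb : L < 2 ^ (b + 1)) (hb1 : 1 ≤ b)
    (hK : 384 * M ^ 2 * b ≤ L) (hw : w + q = L) (hq : L < M * (q + 1))
    (hn : n + 1 = R s (t + 1)) : (n - R s t) * 2 ^ w ≤ n ∧ 2 ^ w ≤ n := by
  have hM2 : 1 ≤ M ^ 2 := Nat.one_le_pow _ _ hM
  have hbL : 384 * b ≤ L := by nlinarith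
  have hst : s ≤ t := by
    have : 2 ^ 2 * s ≤ 2 ^ L * s :=
      Nat.mul_le_mul_right _ (Nat.pow_le_pow_right (by norm_num) (by omega))
    omega
  obtain ⟨P, hP⟩ : ∃ P, P = s * b := ⟨_, rfl⟩
  have hsP : s ≤ P := by rw [hP]; exact Nat.le_mul_of_pos_right _ hb1
  have hKP : 384 * M ^ 2 * P ≤ L * s := by
    calc 384 * M ^ 2 * P = 384 * M ^ 2 * b * s := by rw [hP]; ring
      _ ≤ _ := Nat.mul_le_mul_right _ hK
  have hPL : 384 * P ≤ L * s := by nlinarith
  have h2L : L * 2 ≤ L * s := Nat.mul_le_mul_left _ hs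
  obtain ⟨e, he⟩ : ∃ e, e + 14 * P + L = s * L :=
    ⟨s * L - (14 * P + L), by rw [mul_comm s L]; omega⟩
  obtain ⟨c, hc⟩ : ∃ c, c + 3 * b + 8 = L := ⟨L - 3 * b - 8, by omega⟩
  have hlow := lower_pow L b c s (s + t + 1) s e hN hb hc (by omega) hs le_rfl (by omega) (by
    have e1 : s * L = c * s + 3 * P + 8 * s := by rw [← hc, hP]; ring
    omega)
  have hNs : s + t + 1 - s = t + 1 := by omega
  rw [hNs] at hlow
  have hen : 2 ^ e ≤ n := by omega
  have hwe : 2 ^ w ≤ n := by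
    refine le_trans (Nat.pow_le_pow_right (by norm_num) ?_) hen
    by_cases hs2 : s = 2
    · have a0 : M * (384 * b) ≤ M * (M * (384 * b)) :=
        Nat.mul_le_mul_left _ (Nat.le_mul_of_pos_left _ hM)
      have a1 : M * (384 * b) < M * (q + 1) := by nlinarith
      have a2 := lt_of_mul_lt_mul_left a1 (Nat.zero_le _)
      subst hs2
      omega
    · have : L * 3 ≤ L * s := Nat.mul_le_mul_left _ (by omega)
      rw [mul_comm s L] at he
      omega
  refine ⟨?_, hwe⟩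
  by_cases hcase : 17 * P + 1 ≤ q
  · obtain ⟨v, rfl⟩ : ∃ v, s = 0 + 1 + (v + 1) := ⟨s - 2, by omega⟩
    have h := drc_R (a := 0 + 1) (b := v + 1) 1 (by omega) (by omega) (by omega) hn
    have e1 : (0 + 1 + (v + 1)) * L = v * L + 2 * L := by ring
    have e2 : (L + 1) * v = v * L + v := by ring
    exact key_step h hen (R_upper (by omega) hN') (R_upper (by omega) hN') 1 rfl le_rfl
      (by omega) (by omega)
  · have hqP : q ≤ 17 * P := by omega
    obtain ⟨k, hk1, hk2⟩ : ∃ k, s < 2 * M * k ∧ 2 * M * k ≤ s + 2 * M :=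
      ⟨s / (2 * M) + 1, Nat.lt_mul_div_succ _ (by omega), by
        have := Nat.mul_div_le s (2 * M)
        rw [mul_add, mul_one]; omega⟩
    obtain ⟨u, hu1, hu2⟩ : ∃ u, 17 * (2 * M + 1) * P < u * L ∧
        u * L ≤ 17 * (2 * M + 1) * P + L :=
      ⟨17 * (2 * M + 1) * P / L + 1, by
        rw [mul_comm _ L]; exact Nat.lt_mul_div_succ _ (by omega), by
        have := Nat.div_mul_le_self (17 * (2 * M + 1) * P) L
        rw [add_mul, one_mul]; omega⟩
    obtain ⟨hL1, hu⟩ := numerics_u hM (by omega) hq hqP hu2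
    have hu0 : 1 ≤ u := by
      rcases Nat.eq_zero_or_pos u with h0 | h0
      · rw [h0] at hu1; omega
      · exact h0
    have hus : 5 * u ≤ s := by
      have a0 : M * P ≤ M * (M * P) := Nat.le_mul_of_pos_left _ hM
      have : L * (5 * u) ≤ L * s := by nlinarith
      exact le_of_mul_le_mul_left this (by omega)
    obtain ⟨v, hv⟩ : ∃ v, s = u + v + 2 := ⟨s - u - 2, by omega⟩
    have hs' : u + 1 + (v + 1) = s := by omega
    have h := drc_R (a := u + 1) (b := v + 1) (t := t) (n := n) (s + k) (by omega) (by omega)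
      (by omega) (by rw [hs']; exact hn)
    rw [hs'] at h
    exact key_step h hen (R_upper (by omega) hN') (R_upper (by omega) hN') (v + 2 + k)
      (by omega) (by omega)
      (numerics_one hM (by omega) hsP (by omega) hw hq hKP he hk2 hL1 hu)
      (numerics_two hsP hw he hk1 hu1 hv)

lemma R_one (t : ℕ) : R 1 (t + 1) = 1 := by
  have h1 := R_le_choose 0 t
  have h2 := R_pos (s := 1) (t := t + 1) le_rfl (by omega)
  simp only [zero_add, Nat.choose_zero_right] at h1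
  omega

lemma R_mono_left {s s' t : ℕ} (hs : 1 ≤ s) (ht : 1 ≤ t) (h : s ≤ s') : R s t ≤ R s' t := by
  apply R_le_of_arr
  intro G
  rcases arr_R (hs.trans h) ht G with h1 | h1
  · exact Or.inl (fun hf => h1 (hf.mono h))
  · exact Or.inr h1

lemma sq_le_two_pow {b : ℕ} (hb : 4 ≤ b) : b * b ≤ 2 ^ b := by
  induction b, hb using Nat.le_induction with
  | base => norm_num
  | succ k hk ih => rw [pow_succ]; nlinarith

/-- The uniform ratio bound in the second argument. -/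
theorem ratio_real (γ : ℝ) (h0 : 0 < γ) (h1 : γ < 1) :
    ∃ L₀ : ℕ, 1 ≤ L₀ ∧ ∀ s t : ℕ, 1 ≤ s → L₀ * s ≤ t →
      (R s (t + 1) : ℝ) ≤ (1 + ((s : ℝ) / t) ^ γ) * R s t := by
  obtain ⟨M, hM⟩ := exists_nat_ge (2 / (1 - γ))
  have hγ : 0 < 1 - γ := by linarith
  have hM2 : 2 ≤ (M : ℝ) * (1 - γ) := (div_le_iff₀ hγ).1 hM
  have hM1 : 1 ≤ M := by
    rcases Nat.eq_zero_or_pos M with h | h
    · rw [h] at hM2; norm_num at hM2
    · exact h
  refine ⟨2 ^ (2 ^ (384 * M ^ 2)), Nat.one_le_two_pow, fun s t hs ht => ?_⟩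
  have hst : s ≤ t := le_trans (Nat.le_mul_of_pos_left _ (by positivity)) ht
  have hs' : (0 : ℝ) < s := by exact_mod_cast hs
  have ht' : (0 : ℝ) < t := by exact_mod_cast (hs.trans hst)
  have hη0 : 0 ≤ ((s : ℝ) / t) ^ γ := by positivity
  have hη1 : ((s : ℝ) / t) ^ γ ≤ 1 :=
    Real.rpow_le_one (by positivity) ((div_le_one ht').2 (by exact_mod_cast hst)) h0.le
  by_cases hs1 : s = 1
  · subst hs1
    obtain ⟨v, rfl⟩ : ∃ v, t = v + 1 := ⟨t - 1, by omega⟩
    rw [R_one, R_one]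
    push_cast at hη0 ⊢
    linarith
  set N := s + t + 1 with hNdef
  set L := Nat.log 2 (N / s) with hL
  set b := Nat.log 2 L with hb
  have hM2' : 1 ≤ M ^ 2 := Nat.one_le_pow _ _ hM1
  have h4 : 2 ^ (2 ^ (384 * M ^ 2)) ≤ N / s := (Nat.le_div_iff_mul_le hs).2 (by omega)
  have hL2 : 2 ^ (384 * M ^ 2) ≤ L := Nat.le_log_of_pow_le (by norm_num) h4
  have hb2 : 384 * M ^ 2 ≤ b := Nat.le_log_of_pow_le (by norm_num) hL2
  have hL0 : L ≠ 0 := by
    have : 0 < 2 ^ (384 * M ^ 2) := by positivity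
    omega
  have hNa : 2 ^ L * s ≤ N :=
    (Nat.le_div_iff_mul_le hs).1 (Nat.pow_log_le_self 2 (by
      have : 0 < 2 ^ (2 ^ (384 * M ^ 2)) := by positivity
      omega))
  have hNa' : N < 2 ^ (L + 1) * s :=
    (Nat.div_lt_iff_lt_mul hs).1 (Nat.lt_pow_succ_log_self (by norm_num) _)
  have hab : L < 2 ^ (b + 1) := Nat.lt_pow_succ_log_self (by norm_num) _
  have hK : 384 * M ^ 2 * b ≤ L :=
    calc 384 * M ^ 2 * b ≤ b * b := Nat.mul_le_mul_right _ hb2
      _ ≤ 2 ^ b := sq_le_two_pow (by omega)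
      _ ≤ L := Nat.pow_log_le_self 2 hL0
  have hqL : L / M ≤ L := Nat.div_le_self _ _
  obtain ⟨w, hw⟩ : ∃ w, w + L / M = L := ⟨L - L / M, by omega⟩
  have hpos := R_pos (s := s) (t := t + 1) hs (by omega)
  obtain ⟨n, hn⟩ : ∃ n, n + 1 = R s (t + 1) := ⟨R s (t + 1) - 1, by omega⟩
  obtain ⟨k1, k2⟩ := ratio_nat hM1 (by omega) hNa hNa' hab (by omega) hK hw
    (Nat.lt_mul_div_succ _ hM1) hn
  have hL3 : 3 * M ≤ L := by nlinarith
  have hexp : ((L : ℝ) + 1) * γ + 2 ≤ w := by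
    have e1 : (w : ℝ) + (L / M : ℕ) = L := by exact_mod_cast hw
    have e2 : (M : ℝ) * (L / M : ℕ) ≤ L := by exact_mod_cast Nat.mul_div_le L M
    have e3 : 3 * (M : ℝ) ≤ L := by exact_mod_cast hL3
    have e4 : (0 : ℝ) ≤ (L / M : ℕ) := by positivity
    have e5 : 2 * ((L / M : ℕ) : ℝ) ≤ L * (1 - γ) := by nlinarith
    have e6 : 6 ≤ (L : ℝ) * (1 - γ) := by nlinarith
    nlinarith
  have hη : 4 ≤ ((s : ℝ) / t) ^ γ * 2 ^ w := by
    have e1 : ((2 : ℝ) ^ (-((L : ℝ) + 1))) ≤ (s : ℝ) / t := by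
      rw [Real.rpow_neg (by norm_num), le_div_iff₀ ht', inv_mul_le_iff₀ (by positivity)]
      have : (t : ℝ) ≤ ((2 ^ (L + 1) * s : ℕ) : ℝ) := by exact_mod_cast (by omega)
      rw [show ((L : ℝ) + 1) = ((L + 1 : ℕ) : ℝ) by push_cast; ring, Real.rpow_natCast]
      push_cast at this ⊢
      exact this
    have e2 := Real.rpow_le_rpow (by positivity) e1 h0.le
    rw [← Real.rpow_mul (by norm_num)] at e2
    calc (4 : ℝ) = 2 ^ (2 : ℝ) := by norm_num
      _ ≤ 2 ^ (-((L : ℝ) + 1) * γ + w) :=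
          Real.rpow_le_rpow_of_exponent_le (by norm_num) (by linarith)
      _ = 2 ^ (-((L : ℝ) + 1) * γ) * 2 ^ w := by
          rw [Real.rpow_add (by norm_num), Real.rpow_natCast]
      _ ≤ _ := mul_le_mul_of_nonneg_right e2 (by positivity)
  rw [← hn]
  obtain ⟨d, hd⟩ : ∃ d, d = n - R s t := ⟨_, rfl⟩
  rw [← hd] at k1
  have k3 : (n : ℝ) ≤ R s t + d := by exact_mod_cast (by omega : n ≤ R s t + d)
  have k1' : (d : ℝ) * 2 ^ w ≤ n := by exact_mod_cast k1
  have k2' : (2 : ℝ) ^ w ≤ n := by exact_mod_cast k2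
  generalize ((s : ℝ) / t) ^ γ = η at *
  have hW : (0 : ℝ) < 2 ^ w := by positivity
  generalize (2 : ℝ) ^ w = W at *
  have hn0 : (0 : ℝ) ≤ n := by positivity
  have hd0 : (0 : ℝ) ≤ d := by positivity
  have k4 : 2 * ((d : ℝ) + 1) ≤ η * n := by
    have : 4 * ((d : ℝ) + 1) ≤ η * W * (d + 1) := mul_le_mul_of_nonneg_right hη (by linarith)
    have : η * ((d + 1) * W) ≤ η * (2 * n) := mul_le_mul_of_nonneg_left (by linarith) hη0
    linarith
  push_cast
  have k5 : (1 + η) * ((n : ℝ) - d) ≤ (1 + η) * R s t :=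
    mul_le_mul_of_nonneg_left (by linarith) (by linarith)
  have k6 : η * d ≤ d := by nlinarith
  nlinarith

end Pool.Agent.Lib.MP_05c1d7_co
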