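import Pool.Agent.Lib.MP_05c1d7_co.Drc

/-!
Dependent random choice with clique counting: the ratio bound with a polylogarithmic loss.
-/

namespace Pool.Agent.Lib.MP_05c1d7_co
open Finset

/-- Triangular numbers `a (a - 1) / 2`. -/
def tri : ℕ → ℕ
  | 0 => 0
  | a + 1 => tri a + a

lemma two_tri (a : ℕ) : 2 * tri (a + 1) = a * (a + 1) := by
  induction a with
  | zero => simp [tri]
  | succ a ih => rw [tri, mul_add, ih]; ring

open Classical in
/-- The number of ordered `a`-cliques inside `U`. -/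
noncomputable def cnt {n : ℕ} (G : SimpleGraph (Fin n)) : ℕ → Finset (Fin n) → ℕ
  | 0, _ => 1
  | a + 1, U => ∑ v ∈ U, cnt G a (U.filter (fun x => G.Adj x v))

open Classical in
lemma cnt_mono {n : ℕ} (G : SimpleGraph (Fin n)) (a : ℕ) {U W : Finset (Fin n)} (h : U ⊆ W) :
    cnt G a U ≤ cnt G a W := by
  induction a generalizing U W with
  | zero => simp [cnt]
  | succ a ih =>
    simp only [cnt]
    calc _ ≤ ∑ v ∈ U, cnt G a (W.filter (fun x => G.Adj x v)) :=
          sum_le_sum (fun v _ => ih (filter_subset_filter _ h))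
      _ ≤ _ := sum_le_sum_of_subset h

open Classical in
/-- Supersaturation in the form of the Erdos-Szekeres recursion. -/
lemma supersat {n : ℕ} (G : SimpleGraph (Fin n)) (l ρ : ℝ) (hl : 0 < l) (hρ : 0 < ρ)
    (h1 : 2 * l + ρ = 1) (a : ℕ) : ∀ (t : ℕ) (U : Finset (Fin n)) (u : ℝ),
    (∀ K ⊆ U, ¬ Gᶜ.IsNClique (t + 1) K) → u ≤ U.card → 1 ≤ u * l ^ a * ρ ^ t →
    u ^ a * l ^ tri a * ρ ^ (a * t) ≤ cnt G a U := by
  have hρ1 : ρ ≤ 1 := by linarith
  have hl1 : l ≤ 1 := by linarith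
  induction a with
  | zero => intro t U u _ _ _; simp [cnt, tri]
  | succ a iha =>
    intro t
    induction t with
    | zero =>
      intro U u hI hu hthr
      exfalso
      have hU : U = ∅ := by
        by_contra hne
        obtain ⟨v, hv⟩ := nonempty_iff_ne_empty.2 hne
        exact hI {v} (by simpa using hv) (by simp)
      rw [hU] at hu
      simp only [card_empty, Nat.cast_zero] at hu
      have : u * l ^ (a + 1) * ρ ^ 0 ≤ 0 :=
        mul_nonpos_of_nonpos_of_nonneg (mul_nonpos_of_nonpos_of_nonneg hu (by positivity))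
          (by positivity)
      linarith
    | succ t iht =>
      intro U u hI hu hthr
      have hu0 : 0 < u := by
        by_contra hneg
        have : u * l ^ (a + 1) * ρ ^ (t + 1) ≤ 0 :=
          mul_nonpos_of_nonpos_of_nonneg
            (mul_nonpos_of_nonpos_of_nonneg (not_lt.1 hneg) (by positivity)) (by positivity)
        linarith
      by_cases hc : ∃ v ∈ U, ((U.filter (fun x => G.Adj x v)).card : ℝ) + 1 ≤ 2 * l * U.card
      · obtain ⟨v, hv, hd⟩ := hc
        have hsplit := card_filter_add_card_filter_not (s := U.erase v) (fun x => G.Adj x v)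
        rw [card_erase_of_mem hv] at hsplit
        have hle : ((U.erase v).filter (fun x => G.Adj x v)).card
            ≤ (U.filter (fun x => G.Adj x v)).card :=
          card_le_card (filter_subset_filter _ (erase_subset _ _))
        have hpos : 0 < U.card := card_pos.2 ⟨v, hv⟩
        have hcard : (U.card : ℝ) ≤ ((U.erase v).filter (fun x => ¬ G.Adj x v)).card
            + (((U.filter (fun x => G.Adj x v)).card : ℝ) + 1) := by
          exact_mod_cast (by omega)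
        have h := iht ((U.erase v).filter (fun x => ¬ G.Adj x v)) (ρ * u) (by
          intro K hK hcl
          refine hI (insert v K) ?_ (hcl.insert (fun x hx => ?_))
          · intro x hx
            rcases mem_insert.1 hx with rfl | hx
            · exact hv
            · exact mem_of_mem_erase (mem_filter.1 (hK hx)).1
          · have := mem_filter.1 (hK hx)
            rw [SimpleGraph.compl_adj]
            exact ⟨(ne_of_mem_erase this.1).symm, fun hh => this.2 hh.symm⟩)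
          (by
            have : ρ * u ≤ ρ * U.card := mul_le_mul_of_nonneg_left hu hρ.le
            have e : ρ * U.card = U.card - 2 * l * U.card := by
              rw [show ρ = 1 - 2 * l by linarith]; ring
            linarith)
          (by rw [pow_succ ρ t] at hthr; linarith)
        calc u ^ (a + 1) * l ^ tri (a + 1) * ρ ^ ((a + 1) * (t + 1))
            = (ρ * u) ^ (a + 1) * l ^ tri (a + 1) * ρ ^ ((a + 1) * t) := by ring
          _ ≤ _ := h
          _ ≤ _ := by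
            exact_mod_cast cnt_mono G _ ((filter_subset _ _).trans (erase_subset _ _))
      · push Not at hc
        have hul : 1 ≤ u * l := by
          have a1 : l ^ a * ρ ^ (t + 1) ≤ 1 :=
            mul_le_one₀ (pow_le_one₀ hl.le hl1) (by positivity) (pow_le_one₀ hρ.le hρ1)
          have a2 : u * l * (l ^ a * ρ ^ (t + 1)) ≤ u * l * 1 :=
            mul_le_mul_of_nonneg_left a1 (by positivity)
          rw [pow_succ l a] at hthr
          linarith
        have hv : ∀ v ∈ U, (l * u) ^ a * l ^ tri a * ρ ^ (a * (t + 1))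
            ≤ (cnt G a (U.filter (fun x => G.Adj x v)) : ℝ) := by
          intro v hv
          refine iha (t + 1) _ (l * u) (fun K hK => hI K (hK.trans (filter_subset _ _))) ?_ ?_
          · have := hc v hv
            have : 2 * l * u ≤ 2 * l * U.card := mul_le_mul_of_nonneg_left hu (by positivity)
            linarith
          · rw [pow_succ l a] at hthr; linarith
        have hsum := sum_le_sum hv
        rw [sum_const, nsmul_eq_mul] at hsum
        have hX : 0 ≤ (l * u) ^ a * l ^ tri a * ρ ^ (a * (t + 1)) := by positivity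
        calc u ^ (a + 1) * l ^ tri (a + 1) * ρ ^ ((a + 1) * (t + 1))
            = u * ((l * u) ^ a * l ^ tri a * ρ ^ (a * (t + 1))) * ρ ^ (t + 1) := by
              rw [tri]; ring
          _ ≤ u * ((l * u) ^ a * l ^ tri a * ρ ^ (a * (t + 1))) * 1 :=
              mul_le_mul_of_nonneg_left (pow_le_one₀ hρ.le hρ1) (by positivity)
          _ ≤ U.card * ((l * u) ^ a * l ^ tri a * ρ ^ (a * (t + 1))) := by
              rw [mul_one]; exact mul_le_mul_of_nonneg_right hu hX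
          _ ≤ _ := by
              simp only [cnt]
              push_cast
              exact hsum

open Classical in
/-- The sum over `r`-tuples in `W` of the number of ordered cliques in the common neighbourhood. -/
noncomputable def tot {n : ℕ} (G : SimpleGraph (Fin n)) (r a : ℕ) (W : Finset (Fin n)) : ℕ :=
  ∑ T ∈ (univ : Finset (Fin r → Fin n)).filter (fun T => ∀ i, T i ∈ W),
    cnt G a (W.filter (fun x => ∀ i, G.Adj (T i) x))

open Classical in
lemma tot_zero {n : ℕ} (G : SimpleGraph (Fin n)) (r : ℕ) (W : Finset (Fin n)) :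
    tot G r 0 W = W.card ^ r := by
  simp only [tot, cnt, sum_const, smul_eq_mul, mul_one]
  convert card_tuples (r := r) W

open Classical in
lemma tot_succ {n : ℕ} (G : SimpleGraph (Fin n)) (r a : ℕ) (W : Finset (Fin n)) :
    tot G r (a + 1) W = ∑ v ∈ W, tot G r a (W.filter (fun x => G.Adj x v)) := by
  simp only [tot, cnt]
  refine (sum_comm' (t' := W)
    (s' := fun v => (univ : Finset (Fin r → Fin n)).filter
      (fun T => ∀ i, T i ∈ W.filter (fun x => G.Adj x v))) ?_).trans ?_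
  · intro T v
    simp only [mem_filter, mem_univ, true_and]
    exact ⟨fun h => ⟨fun i => ⟨h.1 i, h.2.2 i⟩, h.2.1⟩,
      fun h => ⟨fun i => (h.1 i).1, h.2, fun i => (h.1 i).2⟩⟩
  · refine sum_congr rfl (fun v _ => sum_congr rfl (fun T _ => ?_))
    rw [filter_comm]

open Classical in
lemma tot_le {n : ℕ} (G : SimpleGraph (Fin n)) (r b y Z S : ℕ)
    (hW : ∀ (j : ℕ) (W : Finset (Fin n)), j + 1 ≤ S → (∀ K ⊆ W, ¬ G.IsNClique (j + 1) K) →
      W.card ≤ y ^ j * Z) (a : ℕ) : ∀ W : Finset (Fin n), b + a + 1 ≤ S →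
    (∀ K ⊆ W, ¬ G.IsNClique (b + a + 1) K) →
    tot G r a W ≤ y ^ (a * b + tri (a + 1)) * Z ^ a * (y ^ b * Z) ^ r := by
  induction a with
  | zero =>
    intro W hS hK
    rw [tot_zero]
    simpa [tri] using Nat.pow_le_pow_left (hW b W hS hK) r
  | succ a ih =>
    intro W hS hK
    rw [tot_succ]
    have h1 := hW (b + (a + 1)) W hS hK
    calc _ ≤ ∑ _v ∈ W, y ^ (a * b + tri (a + 1)) * Z ^ a * (y ^ b * Z) ^ r := by
          refine sum_le_sum (fun v hv => ih _ (by omega) (fun K hKs hc => ?_))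
          refine hK (insert v K) ?_ (hc.insert (fun x hx => ((mem_filter.1 (hKs hx)).2).symm))
          intro x hx
          rcases mem_insert.1 hx with rfl | hx
          · exact hv
          · exact (mem_filter.1 (hKs hx)).1
      _ = W.card * (y ^ (a * b + tri (a + 1)) * Z ^ a * (y ^ b * Z) ^ r) := by simp
      _ ≤ y ^ (b + (a + 1)) * Z * (y ^ (a * b + tri (a + 1)) * Z ^ a * (y ^ b * Z) ^ r) :=
          Nat.mul_le_mul_right _ h1
      _ = _ := by rw [show tri (a + 1 + 1) = tri (a + 1) + (a + 1) from rfl]; ring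

open Classical in
lemma deg_low {n s t R0 : ℕ} (G : SimpleGraph (Fin n)) (h0 : PA R0 s t) (hr : G.CliqueFree s)
    (hb : Gᶜ.CliqueFree (t + 1)) (v : Fin n) :
    n - R0 ≤ (univ.filter (fun u => G.Adj u v)).card := by
  by_contra hlt
  have hsplit := card_filter_add_card_filter_not (s := (univ : Finset (Fin n)).erase v)
    (fun u => G.Adj u v)
  rw [card_erase_of_mem (mem_univ v), card_univ, Fintype.card_fin] at hsplit
  have hle : ((univ.erase v).filter (fun u => G.Adj u v)).card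
      ≤ (univ.filter (fun u => G.Adj u v)).card :=
    card_le_card (filter_subset_filter _ (erase_subset _ _))
  rcases h0 (Fin n) G ((univ.erase v).filter (fun u => ¬ G.Adj u v)) (by omega) with
    ⟨K, _, hc⟩ | ⟨K, hK, hc⟩
  · exact hr K hc
  · refine hb _ (hc.insert (a := v) (fun x hx => ?_))
    have := mem_filter.1 (hK hx)
    rw [SimpleGraph.compl_adj]
    exact ⟨(ne_of_mem_erase this.1).symm, fun hh => this.2 hh.symm⟩

open Classical in
lemma sum_common {n d : ℕ} (G : SimpleGraph (Fin n)) (r : ℕ)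
    (hdeg : ∀ v, d ≤ (univ.filter (fun u => G.Adj u v)).card) :
    n * d ^ r ≤ ∑ T : Fin r → Fin n, (univ.filter (fun v => ∀ i, G.Adj (T i) v)).card := by
  calc n * d ^ r = ∑ _v : Fin n, d ^ r := by simp
    _ ≤ ∑ v : Fin n, (univ.filter (fun u => G.Adj u v)).card ^ r :=
        sum_le_sum (fun v _ => Nat.pow_le_pow_left (hdeg v) _)
    _ = ∑ v : Fin n, ∑ T : Fin r → Fin n, if ∀ i, G.Adj (T i) v then 1 else 0 := by
        refine sum_congr rfl (fun v _ => ?_)
        rw [← card_tuples, card_filter]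
        simp
    _ = ∑ T : Fin r → Fin n, ∑ v : Fin n, if ∀ i, G.Adj (T i) v then 1 else 0 := sum_comm
    _ = _ := by
        refine sum_congr rfl (fun T _ => ?_)
        rw [card_filter]

lemma rho_pow {L s t : ℕ} (hL : 1 ≤ L) (ht : t ≤ 2 ^ (L + 1) * s) :
    1 ≤ (1 - 2 * (1 / (2 : ℝ) ^ (L + 1))) ^ t * 2 ^ (4 * s) := by
  obtain ⟨J, rfl⟩ : ∃ J, L = J + 1 := ⟨L - 1, by omega⟩
  have hY : (1 : ℝ) ≤ 2 ^ J := one_le_pow₀ (by norm_num)
  have e : 2 * (1 / (2 : ℝ) ^ (J + 1 + 1)) = 1 / (2 * 2 ^ J) := by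
    field_simp; ring
  rw [e]
  have h1 : 1 / (2 * (2 : ℝ) ^ J) ≤ 1 / 2 := one_div_le_one_div_of_le (by norm_num) (by linarith)
  have h0 : 0 < 1 / (2 * (2 : ℝ) ^ J) := by positivity
  have h2 := one_add_mul_le_pow (a := -(1 / (2 * (2 : ℝ) ^ J))) (by linarith) (2 ^ J)
  have e2 : 1 + ((2 ^ J : ℕ) : ℝ) * -(1 / (2 * (2 : ℝ) ^ J)) = 1 / 2 := by
    push_cast; field_simp; ring
  rw [e2, ← sub_eq_add_neg] at h2
  have h3 : (1 - 1 / (2 * (2 : ℝ) ^ J)) ^ (2 ^ J * (4 * s)) ≤ (1 - 1 / (2 * (2 : ℝ) ^ J)) ^ t :=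
    pow_le_pow_of_le_one (by linarith) (by linarith) (by
      calc t ≤ 2 ^ (J + 1 + 1) * s := ht
        _ = _ := by ring)
  calc (1 : ℝ) = (1 / 2) ^ (4 * s) * 2 ^ (4 * s) := by rw [← mul_pow]; norm_num
    _ ≤ ((1 - 1 / (2 * (2 : ℝ) ^ J)) ^ (2 ^ J)) ^ (4 * s) * 2 ^ (4 * s) := by gcongr
    _ ≤ _ := by rw [← pow_mul]; gcongr

/-- Dependent random choice with clique counting. -/
lemma drc2_graph {n s t b j R0 L w e : ℕ} (hs : s = b + j + 2) (h0 : PA R0 s t)
    (h : ¬ Arr n s (t + 1)) (hL : 1 ≤ L) (hN : s + t + 1 < 2 ^ (L + 1) * s) (he : 2 ^ e ≤ n)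
    (c1 : w * (j + 1) + 1 + (L + 1) * (j + 1) + 4 * s ≤ e)
    (c2 : (w * (j + 1) + 1) * (j + 1) + (L + 1) * tri (j + 1) + 4 * s * (j + 1)
      + ((L + 1) * (j * b + tri (j + 1)) + 2 * s * j + ((L + 1) * b + 2 * s) * (j + 1))
      < e * (j + 1 + j)) : (n - R0) * 2 ^ w ≤ n := by
  classical
  unfold Arr at h
  push Not at h
  obtain ⟨G, hr, hb⟩ := h
  by_contra hlt
  have hn : 0 < n := lt_of_lt_of_le (by positivity) he
  have hlow := sum_common G (j + 1) (deg_low G h0 hr hb)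
  obtain ⟨d, hd⟩ : ∃ d, d = n - R0 := ⟨_, rfl⟩
  rw [← hd] at hlt hlow
  have hW : ∀ (i : ℕ) (W : Finset (Fin n)), i + 1 ≤ s → (∀ K ⊆ W, ¬ G.IsNClique (i + 1) K) →
      W.card ≤ (2 ^ (L + 1)) ^ i * 2 ^ (2 * s) := by
    intro i W hi hK
    by_contra hlt'
    have h1 := R_upper (u := i) (t := t) (by omega) hN
    rw [pow_add, pow_mul] at h1
    rcases pa_of_arr (arr_R (s := i + 1) (t := t + 1) (by omega) (by omega)) (Fin n) G W
      (by omega) with ⟨K, hKs, hc⟩ | ⟨K, _, hc⟩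
    · exact hK K hKs hc
    · exact hb K hc
  have hup : tot G (j + 1) (j + 1) univ ≤
      n * 2 ^ ((L + 1) * (j * b + tri (j + 1)) + 2 * s * j + ((L + 1) * b + 2 * s) * (j + 1)) := by
    rw [tot_succ]
    calc _ ≤ ∑ _v : Fin n, (2 ^ (L + 1)) ^ (j * b + tri (j + 1)) * (2 ^ (2 * s)) ^ j
            * ((2 ^ (L + 1)) ^ b * 2 ^ (2 * s)) ^ (j + 1) := by
          refine sum_le_sum (fun v _ => tot_le G _ b _ _ s hW j _ (by omega) (fun K hKs hc => ?_))
          rw [hs] at hr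
          exact hr _ (hc.insert (a := v) (fun x hx => ((mem_filter.1 (hKs hx)).2).symm))
      _ = _ := by
          rw [sum_const, card_univ, Fintype.card_fin, smul_eq_mul, ← pow_mul, ← pow_mul, ← pow_mul,
            ← pow_add, ← pow_add, ← pow_mul, ← pow_add]
  generalize (L + 1) * (j * b + tri (j + 1)) + 2 * s * j + ((L + 1) * b + 2 * s) * (j + 1) = E
    at c2 hup
  have hρt := rho_pow (s := s) (t := t) hL (by omega)
  obtain ⟨l, hl⟩ : ∃ l : ℝ, l = 1 / 2 ^ (L + 1) := ⟨_, rfl⟩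
  rw [← hl] at hρt
  have hl0 : 0 < l := by rw [hl]; positivity
  have hly : l * 2 ^ (L + 1) = 1 := by rw [hl]; field_simp
  have hρ0 : 0 < 1 - 2 * l := by
    have : (2 : ℝ) ^ 2 ≤ 2 ^ (L + 1) := pow_le_pow_right₀ (by norm_num) (by omega)
    nlinarith
  obtain ⟨ρ, hρ⟩ : ∃ ρ : ℝ, ρ = 1 - 2 * l := ⟨_, rfl⟩
  rw [← hρ] at hρt hρ0
  obtain ⟨m, hm⟩ : ∃ m : ℝ, m = n / 2 ^ (w * (j + 1) + 1) := ⟨_, rfl⟩
  have hn' : (0 : ℝ) < n := by exact_mod_cast hn
  have hm0 : 0 < m := by rw [hm]; positivity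
  have hmn : m * 2 ^ (w * (j + 1) + 1) = n := by rw [hm]; field_simp
  have hthr : 1 ≤ m * l ^ (j + 1) * ρ ^ t := by
    have a1 : ((2 : ℝ) ^ (w * (j + 1) + 1 + (L + 1) * (j + 1) + 4 * s)) ≤ n := by
      exact_mod_cast le_trans (Nat.pow_le_pow_right (by norm_num) c1) he
    rw [← hmn, pow_add _ _ (4 * s), pow_add _ _ ((L + 1) * (j + 1)), pow_mul _ (L + 1),
      mul_assoc, mul_comm m] at a1
    have a2 := le_of_mul_le_mul_left a1 (by positivity)
    calc (1 : ℝ) = (l * 2 ^ (L + 1)) ^ (j + 1) * 1 := by rw [hly]; simp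
      _ ≤ (l * 2 ^ (L + 1)) ^ (j + 1) * (ρ ^ t * 2 ^ (4 * s)) :=
          mul_le_mul_of_nonneg_left hρt (by positivity)
      _ = ((2 ^ (L + 1)) ^ (j + 1) * 2 ^ (4 * s)) * (l ^ (j + 1) * ρ ^ t) := by
          rw [mul_pow]; ring
      _ ≤ m * (l ^ (j + 1) * ρ ^ t) := mul_le_mul_of_nonneg_right a2 (by positivity)
      _ = _ := by ring
  obtain ⟨κ, hκ⟩ : ∃ κ : ℝ, κ = l ^ tri (j + 1) * ρ ^ ((j + 1) * t) := ⟨_, rfl⟩
  have hκ0 : 0 < κ := by rw [hκ]; positivity
  have hT : ∀ T : Fin (j + 1) → Fin n,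
      κ * m ^ j * ((univ.filter (fun v => ∀ i, G.Adj (T i) v)).card - m)
        ≤ (cnt G (j + 1) (univ.filter (fun v => ∀ i, G.Adj (T i) v)) : ℝ) := by
    intro T
    generalize univ.filter (fun v => ∀ i, G.Adj (T i) v) = U
    by_cases hU : m ≤ U.card
    · have h1 := supersat G l ρ hl0 hρ0 (by linarith) (j + 1) t U U.card
        (fun K _ hc => hb K hc) le_rfl (le_trans hthr (by gcongr))
      refine le_trans ?_ h1
      rw [mul_assoc ((U.card : ℝ) ^ (j + 1)), ← hκ, pow_succ]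
      have a1 : m ^ j ≤ (U.card : ℝ) ^ j := pow_le_pow_left₀ hm0.le hU _
      calc κ * m ^ j * (U.card - m) ≤ κ * (U.card : ℝ) ^ j * U.card := by
            gcongr
            linarith
        _ = _ := by ring
    · have : κ * m ^ j * (U.card - m) ≤ 0 :=
        mul_nonpos_of_nonneg_of_nonpos (by positivity) (by linarith)
      exact this.trans (by positivity)
  have hsum := sum_le_sum (s := univ) (fun T _ => hT T)
  rw [← mul_sum, sum_sub_distrib, sum_const, card_univ, Fintype.card_fun, Fintype.card_fin,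
    Fintype.card_fin, nsmul_eq_mul] at hsum
  have htot : ∑ T : Fin (j + 1) → Fin n,
      (cnt G (j + 1) (univ.filter (fun v => ∀ i, G.Adj (T i) v)) : ℝ) ≤ n * 2 ^ E := by
    have : ∑ T : Fin (j + 1) → Fin n, cnt G (j + 1) (univ.filter (fun v => ∀ i, G.Adj (T i) v))
        ≤ n * 2 ^ E := by
      refine le_trans (le_of_eq ?_) hup
      simp [tot]
    exact_mod_cast this
  have hlow' : (n : ℝ) * d ^ (j + 1) ≤ ∑ T : Fin (j + 1) → Fin n,
      ((univ.filter (fun v => ∀ i, G.Adj (T i) v)).card : ℝ) := by exact_mod_cast hlow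
  have hdn : (n : ℝ) ^ (j + 1) ≤ d ^ (j + 1) * 2 ^ (w * (j + 1)) := by
    rw [pow_mul, ← mul_pow]
    exact pow_le_pow_left₀ hn'.le (by exact_mod_cast (not_le.1 hlt).le) _
  have h2m : 2 * (n ^ (j + 1) * m) ≤ (n : ℝ) * d ^ (j + 1) := by
    calc 2 * (n ^ (j + 1) * m) ≤ 2 * (d ^ (j + 1) * 2 ^ (w * (j + 1)) * m) := by gcongr
      _ = m * 2 ^ (w * (j + 1) + 1) * d ^ (j + 1) := by ring
      _ = _ := by rw [hmn]
  have hA : κ * m ^ j * (n ^ (j + 1) * m) ≤ n * 2 ^ E := by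
    refine le_trans (mul_le_mul_of_nonneg_left ?_ (by positivity)) (hsum.trans htot)
    push_cast
    linarith
  have hκ1 : 1 ≤ κ * (2 ^ ((L + 1) * tri (j + 1)) * 2 ^ (4 * s * (j + 1))) := by
    calc (1 : ℝ) = (l * 2 ^ (L + 1)) ^ tri (j + 1) * 1 := by rw [hly]; simp
      _ ≤ (l * 2 ^ (L + 1)) ^ tri (j + 1) * (ρ ^ t * 2 ^ (4 * s)) ^ (j + 1) :=
          mul_le_mul_of_nonneg_left (one_le_pow₀ hρt) (by positivity)
      _ = _ := by rw [hκ, mul_pow, mul_pow, ← pow_mul, ← pow_mul, ← pow_mul]; ring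
  have hB : (n : ℝ) * n ^ (j + 1 + j) ≤ n * 2 ^ ((w * (j + 1) + 1) * (j + 1)
      + (L + 1) * tri (j + 1) + 4 * s * (j + 1) + E) := by
    calc (n : ℝ) * n ^ (j + 1 + j) = n ^ (j + 1) * n ^ (j + 1) * 1 := by ring
      _ ≤ n ^ (j + 1) * n ^ (j + 1)
            * (κ * (2 ^ ((L + 1) * tri (j + 1)) * 2 ^ (4 * s * (j + 1)))) :=
          mul_le_mul_of_nonneg_left hκ1 (by positivity)
      _ = (m * 2 ^ (w * (j + 1) + 1)) ^ (j + 1) * n ^ (j + 1)
            * (κ * (2 ^ ((L + 1) * tri (j + 1)) * 2 ^ (4 * s * (j + 1)))) := by rw [hmn]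
      _ = κ * m ^ j * (n ^ (j + 1) * m) * (2 ^ ((w * (j + 1) + 1) * (j + 1))
            * 2 ^ ((L + 1) * tri (j + 1)) * 2 ^ (4 * s * (j + 1))) := by
          rw [mul_pow, ← pow_mul, pow_succ m]; ring
      _ ≤ n * 2 ^ E * (2 ^ ((w * (j + 1) + 1) * (j + 1))
            * 2 ^ ((L + 1) * tri (j + 1)) * 2 ^ (4 * s * (j + 1))) :=
          mul_le_mul_of_nonneg_right hA (by positivity)
      _ = _ := by rw [pow_add, pow_add, pow_add]; ring
  have hC := le_of_mul_le_mul_left hB hn'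
  have hD : n ^ (j + 1 + j) ≤ 2 ^ ((w * (j + 1) + 1) * (j + 1)
      + (L + 1) * tri (j + 1) + 4 * s * (j + 1) + E) := by exact_mod_cast hC
  have hE : 2 ^ (e * (j + 1 + j)) ≤ n ^ (j + 1 + j) := by
    rw [pow_mul]; exact Nat.pow_le_pow_left he _
  exact absurd ((Nat.pow_le_pow_iff_right (by norm_num : 1 < 2)).1 (hE.trans hD)) (not_le.2 c2)

lemma numerics_three {s L P q w e j b : ℕ} (hsP : s ≤ P) (hw : w + q = L)
    (he : e + 14 * P + L = s * L) (hs : s = b + j + 2) (hq : 38 * P < q * (j + 1)) :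
    (w * (j + 1) + 1) * (j + 1) + (L + 1) * tri (j + 1) + 4 * s * (j + 1)
      + ((L + 1) * (j * b + tri (j + 1)) + 2 * s * j + ((L + 1) * b + 2 * s) * (j + 1))
      < e * (j + 1 + j) := by
  have h1 := two_tri j
  generalize tri (j + 1) = τ at h1 ⊢
  have a1 : (L + 1) * (2 * τ) = (L + 1) * (j * (j + 1)) := by rw [h1]
  have a2 : (e + 14 * P + L) * (j + 1 + j) = (b + j + 2) * L * (j + 1 + j) := by rw [he, hs]
  have a3 : (38 * P + 1) * (j + 1) ≤ q * (j + 1) * (j + 1) := Nat.mul_le_mul_right _ hq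
  have a4 : (b + j + 2) * (j + 1) ≤ P * (j + 1) := Nat.mul_le_mul_right _ (by omega)
  have a5 : (w + q) * ((j + 1) * (j + 1)) = L * ((j + 1) * (j + 1)) := by rw [hw]
  subst hs
  nlinarith [Nat.zero_le (b + j + 2), Nat.zero_le P, Nat.zero_le (j * j), Nat.zero_le j]

/-- The ratio bound with integer parameters and a polylogarithmic loss. -/
lemma ratio_nat2 {s t L β w n : ℕ} (hs : 2 ≤ s) (hN : 2 ^ L * s ≤ s + t + 1)
    (hN' : s + t + 1 < 2 ^ (L + 1) * s) (hb : L < 2 ^ (β + 1)) (hb1 : 1 ≤ β)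
    (hw : w + 153 * β = L) (hn : n + 1 = R s (t + 1)) : (n - R s t) * 2 ^ w ≤ n ∧ 2 ^ w ≤ n := by
  have hst : s ≤ t := by
    have : 2 ^ 2 * s ≤ 2 ^ L * s :=
      Nat.mul_le_mul_right _ (Nat.pow_le_pow_right (by norm_num) (by omega))
    omega
  obtain ⟨P, hP⟩ : ∃ P, P = s * β := ⟨_, rfl⟩
  have hsP : s ≤ P := by rw [hP]; exact Nat.le_mul_of_pos_right _ hb1
  have hPL : 153 * P ≤ s * L := by
    calc 153 * P = s * (153 * β) := by rw [hP]; ring
      _ ≤ _ := Nat.mul_le_mul_left _ (by omega)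
  have h2L : 2 * L ≤ s * L := Nat.mul_le_mul_right _ hs
  obtain ⟨e, he⟩ : ∃ e, e + 14 * P + L = s * L := ⟨s * L - (14 * P + L), by omega⟩
  obtain ⟨c, hc⟩ : ∃ c, c + 3 * β + 8 = L := ⟨L - 3 * β - 8, by omega⟩
  have hlow := lower_pow L β c s (s + t + 1) s e hN hb hc (by omega) hs le_rfl (by omega) (by
    have e1 : s * L = c * s + 3 * P + 8 * s := by rw [← hc, hP]; ring
    omega)
  have hNs : s + t + 1 - s = t + 1 := by omega
  rw [hNs] at hlow
  have hen : 2 ^ e ≤ n := by omega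
  by_cases hs2 : s = 2
  · subst hs2
    refine ⟨?_, le_trans (Nat.pow_le_pow_right (by norm_num) (by omega)) hen⟩
    have h := drc_R (a := 0 + 1) (b := 0 + 1) 1 (by omega) (by omega) (by omega) hn
    exact key_step h hen (R_upper (by omega) hN') (R_upper (by omega) hN') 1 rfl le_rfl
      (by omega) (by omega)
  · have h3L : 3 * L ≤ s * L := Nat.mul_le_mul_right _ (by omega)
    refine ⟨?_, le_trans (Nat.pow_le_pow_right (by norm_num) (by omega)) hen⟩
    obtain ⟨j, b, hjb, hj1, hj2⟩ : ∃ j b, s = b + j + 2 ∧ s ≤ 4 * (j + 1) ∧ j + 1 ≤ b :=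
      ⟨(s - 3) / 2, s - 2 - (s - 3) / 2, by omega, by omega, by omega⟩
    have hq : 38 * P < 153 * β * (j + 1) := by
      have : s * β ≤ 4 * (j + 1) * β := Nat.mul_le_mul_right _ hj1
      nlinarith
    refine drc2_graph (L := L) (e := e) hjb (pa_of_arr (arr_R (by omega) (by omega)))
      (not_arr_of_lt (by omega)) (by omega) hN' hen ?_ (numerics_three hsP hw he hjb hq)
    have a1 : (w + 153 * β) * (j + 1) = L * (j + 1) := by rw [hw]
    have a2 : (2 * (j + 1) + 1) * L ≤ s * L := Nat.mul_le_mul_right _ (by omega)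
    nlinarith

/-- The uniform ratio bound with a polylogarithmic loss. -/
theorem ratio_polylog {K : ℕ} (hK : 310 ≤ K) (s t : ℕ) (hs : 1 ≤ s) (ht : 2 ^ (2 ^ K) * s ≤ t) :
    (R s (t + 1) : ℝ) ≤ (1 + Real.log ((t : ℝ) / s) ^ K / ((t : ℝ) / s)) * R s t := by
  have hst : s ≤ t := le_trans (Nat.le_mul_of_pos_left _ (by positivity)) ht
  have hs' : (0 : ℝ) < s := by exact_mod_cast hs
  have ht' : (0 : ℝ) < t := by exact_mod_cast (hs.trans hst)
  have hx : (2 : ℝ) ^ (2 ^ K) ≤ (t : ℝ) / s := by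
    rw [le_div_iff₀ hs']; exact_mod_cast ht
  have hK3 : 3 ≤ 2 ^ K := by
    have := Nat.lt_two_pow_self (n := K)
    omega
  have hx8 : (2 : ℝ) ^ 3 ≤ (t : ℝ) / s := le_trans (pow_le_pow_right₀ (by norm_num) hK3) hx
  have hl2 := Real.log_two_gt_d9
  have hl2' := Real.log_two_lt_d9
  have hlog : 2 ≤ Real.log ((t : ℝ) / s) := by
    have := Real.log_le_log (by positivity) hx8
    rw [Real.log_pow] at this
    push_cast at this
    linarith
  have hη0 : 0 ≤ Real.log ((t : ℝ) / s) ^ K / ((t : ℝ) / s) := by positivity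
  by_cases hs1 : s = 1
  · subst hs1
    obtain ⟨v, rfl⟩ : ∃ v, t = v + 1 := ⟨t - 1, by omega⟩
    rw [R_one, R_one]
    push_cast at hη0 ⊢
    linarith
  set N := s + t + 1 with hNdef
  set L := Nat.log 2 (N / s) with hL
  set b := Nat.log 2 L with hb
  have h4 : 2 ^ (2 ^ K) ≤ N / s := (Nat.le_div_iff_mul_le hs).2 (by omega)
  have hL2 : 2 ^ K ≤ L := Nat.le_log_of_pow_le (by norm_num) h4
  have hb2 : K ≤ b := Nat.le_log_of_pow_le (by norm_num) hL2
  have hL0 : L ≠ 0 := by omega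
  have hNa : 2 ^ L * s ≤ N :=
    (Nat.le_div_iff_mul_le hs).1 (Nat.pow_log_le_self 2 (by
      have : 0 < 2 ^ (2 ^ K) := by positivity
      omega))
  have hNa' : N < 2 ^ (L + 1) * s :=
    (Nat.div_lt_iff_lt_mul hs).1 (Nat.lt_pow_succ_log_self (by norm_num) _)
  have hab : L < 2 ^ (b + 1) := Nat.lt_pow_succ_log_self (by norm_num) _
  have hbL : 2 ^ b ≤ L := Nat.pow_log_le_self 2 hL0
  have hKL : 310 * b ≤ L :=
    calc 310 * b ≤ b * b := Nat.mul_le_mul_right _ (by omega)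
      _ ≤ 2 ^ b := sq_le_two_pow (by omega)
      _ ≤ L := hbL
  obtain ⟨w, hw⟩ : ∃ w, w + 153 * b = L := ⟨L - 153 * b, by omega⟩
  have hpos := R_pos (s := s) (t := t + 1) hs (by omega)
  obtain ⟨n, hn⟩ : ∃ n, n + 1 = R s (t + 1) := ⟨R s (t + 1) - 1, by omega⟩
  obtain ⟨k1, k2⟩ := ratio_nat2 (by omega) hNa hNa' hab (by omega) hw hn
  have hη : 4 ≤ Real.log ((t : ℝ) / s) ^ K / ((t : ℝ) / s) * 2 ^ w := by
    have e1 : (t : ℝ) / s ≤ 2 ^ (L + 1) := by
      rw [div_le_iff₀ hs']; exact_mod_cast (by omega)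
    have e2 : (2 : ℝ) ^ L ≤ 2 * ((t : ℝ) / s) := by
      rw [← mul_div_assoc, le_div_iff₀ hs']
      have : 8 * s ≤ t := by
        rw [le_div_iff₀ hs'] at hx8
        have : ((8 * s : ℕ) : ℝ) ≤ t := by push_cast; linarith
        exact_mod_cast this
      exact_mod_cast (by omega)
    generalize (t : ℝ) / s = x at *
    have hx0 : 0 < x := lt_of_lt_of_le (by positivity) hx8
    have e3 : (L : ℝ) ≤ 2 * Real.log x := by
      have := Real.log_le_log (by positivity) e2
      rw [Real.log_pow, Real.log_mul (by norm_num) hx0.ne'] at this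
      have hL' : (0 : ℝ) ≤ L := by positivity
      nlinarith
    have e4 : ((2 : ℝ) ^ b) ≤ 2 * Real.log x := le_trans (by exact_mod_cast hbL) e3
    generalize Real.log x = y at *
    obtain ⟨J, rfl⟩ : ∃ J, K = 153 + J := ⟨K - 153, by omega⟩
    obtain ⟨A, hA⟩ : ∃ A : ℕ, A = 153 := ⟨_, rfl⟩
    rw [← hA] at hw ⊢
    have e5 : ((2 : ℝ) ^ b) ^ A ≤ (2 * y) ^ A := pow_le_pow_left₀ (by positivity) e4 _
    have e6 : (2 : ℝ) ^ (A + 3) ≤ y ^ J :=
      le_trans (pow_le_pow_right₀ (by norm_num) (by omega)) (pow_le_pow_left₀ (by norm_num) hlog J)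
    rw [div_mul_eq_mul_div, le_div_iff₀ hx0]
    calc 4 * x ≤ 4 * 2 ^ (L + 1) := by linarith
      _ = 8 * (2 ^ b) ^ A * 2 ^ w := by rw [← hw, ← pow_mul]; ring
      _ ≤ 8 * (2 * y) ^ A * 2 ^ w := by gcongr
      _ = y ^ A * 2 ^ (A + 3) * 2 ^ w := by rw [mul_pow]; ring
      _ ≤ y ^ A * y ^ J * 2 ^ w := by gcongr
      _ = _ := by rw [← pow_add]
  rw [← hn]
  obtain ⟨d, hd⟩ : ∃ d, d = n - R s t := ⟨_, rfl⟩
  rw [← hd] at k1
  have k3 : (n : ℝ) ≤ R s t + d := by exact_mod_cast (by omega : n ≤ R s t + d)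
  have k1' : (d : ℝ) * 2 ^ w ≤ n := by exact_mod_cast k1
  have k2' : (2 : ℝ) ^ w ≤ n := by exact_mod_cast k2
  have hW : (2 : ℝ) ^ 2 ≤ 2 ^ w := pow_le_pow_right₀ (by norm_num) (by omega)
  generalize Real.log ((t : ℝ) / s) ^ K / ((t : ℝ) / s) = η at *
  generalize (2 : ℝ) ^ w = W at *
  have hd0 : (0 : ℝ) ≤ d := by positivity
  have hR0 : (0 : ℝ) ≤ R s t := by positivity
  have k4 : ((d : ℝ) + 1) * W ≤ 2 * (R s t + d) := by linarith
  have k5 : (d : ℝ) + 1 ≤ R s t := by nlinarith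
  have k6 : 4 * ((d : ℝ) + 1) ≤ η * W * (d + 1) := mul_le_mul_of_nonneg_right hη (by linarith)
  have k7 : η * ((d + 1) * W) ≤ η * (4 * R s t) := mul_le_mul_of_nonneg_left (by linarith) hη0
  push_cast
  linarith

lemma log_pow_div_anti {K : ℕ} (hK : 1 ≤ K) {x z : ℝ} (hx : (2 : ℝ) ^ (2 ^ K) ≤ x) (hxz : x ≤ z) :
    Real.log z ^ K / z ≤ Real.log x ^ K / x := by
  have hx0 : 0 < x := lt_of_lt_of_le (by positivity) hx
  have hz0 : 0 < z := lt_of_lt_of_le hx0 hxz
  have hK' : (0 : ℝ) < K := by exact_mod_cast hK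
  have hlx : (K : ℝ) ≤ Real.log x := by
    have h1 := Real.log_le_log (by positivity) hx
    rw [Real.log_pow] at h1
    have h2 : ((2 * K : ℕ) : ℝ) ≤ ((2 ^ K : ℕ) : ℝ) := by
      obtain ⟨J, rfl⟩ : ∃ J, K = J + 1 := ⟨K - 1, by omega⟩
      have := Nat.lt_two_pow_self (n := J)
      exact_mod_cast (by rw [pow_succ]; omega : 2 * (J + 1) ≤ 2 ^ (J + 1))
    have hl2 := Real.log_two_gt_d9
    push_cast at h1 h2
    nlinarith
  obtain ⟨u, hu⟩ : ∃ u, u = Real.log z - Real.log x := ⟨_, rfl⟩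
  have hu0 : 0 ≤ u := by rw [hu]; linarith [Real.log_le_log hx0 hxz]
  have h1 : Real.log z ≤ Real.log x * Real.exp (u / K) := by
    have a1 := Real.add_one_le_exp (u / K)
    have a2 : u ≤ Real.log x * (u / K) := by
      rw [← mul_div_assoc, le_div_iff₀ hK']; nlinarith
    nlinarith
  have h2 : Real.exp (u / K) ^ K = z / x := by
    rw [← Real.exp_nat_mul, mul_div_cancel₀ _ hK'.ne', hu, Real.exp_sub, Real.exp_log hz0,
      Real.exp_log hx0]
  have h3 := pow_le_pow_left₀ (by linarith) h1 K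
  rw [mul_pow, h2] at h3
  rw [div_le_iff₀ hz0]
  calc _ ≤ _ := h3
    _ = _ := by ring

end Pool.Agent.Lib.MP_05c1d7_co
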