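import Mathlib

/-!
Counting lemmas for incident pairs (functional, vector) over a finite field.
-/

namespace Pool.Agent.Lib.MP_05c1d7_co
open Finset Module

section Count
variable {F : Type} [Field F] [Fintype F]

open Classical in
lemma sub_card {M : Type} [AddCommGroup M] [Module F M] [Fintype M] (U : Submodule F M) :
    ∑ v : M, (if v ∈ U then (1 : ℝ) else 0) = (Fintype.card F : ℝ) ^ finrank F U := by
  have h := Module.card_eq_pow_finrank (K := F) (V := U)
  rw [Fintype.card_subtype] at h
  rw [sum_boole]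
  exact_mod_cast h

variable {V : Type} [AddCommGroup V] [Module F V] [Fintype V] [Fintype (Dual F V)]

open Classical in
lemma ann_card (W : Submodule F V) :
    (∑ a : Dual F V, (if W ≤ LinearMap.ker a then (1 : ℝ) else 0))
      * (Fintype.card F : ℝ) ^ finrank F W = (Fintype.card F : ℝ) ^ finrank F V := by
  have h := sub_card (F := F) W.dualAnnihilator
  have e : ∀ a : Dual F V, (W ≤ LinearMap.ker a) ↔ a ∈ W.dualAnnihilator := by
    intro a
    rw [Submodule.mem_dualAnnihilator]
    exact ⟨fun h w hw => h hw, fun h w hw => h w hw⟩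
  simp only [e]
  rw [h, ← pow_add, add_comm, Subspace.finrank_add_finrank_dualAnnihilator_eq]

lemma one_le_q : (1 : ℝ) ≤ Fintype.card F := by
  exact_mod_cast Fintype.card_pos

lemma two_le_q : (2 : ℝ) ≤ Fintype.card F := by
  exact_mod_cast Fintype.one_lt_card

open Classical in
lemma card_dual : ∑ _a : Dual F V, (1 : ℝ) = (Fintype.card F : ℝ) ^ finrank F V := by
  simpa using ann_card (F := F) (⊥ : Submodule F V)

omit [Fintype (Dual F V)] in
lemma card_V : ∑ _v : V, (1 : ℝ) = (Fintype.card F : ℝ) ^ finrank F V := by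
  simpa using sub_card (F := F) (⊤ : Submodule F V)

open Classical in
lemma n_one {b : V} (hb : b ≠ 0) :
    (∑ a : Dual F V, (if a b = 0 then (1 : ℝ) else 0)) * (Fintype.card F : ℝ)
      = (Fintype.card F : ℝ) ^ finrank F V := by
  have h := ann_card (F := F) (Submodule.span F {b})
  rw [finrank_span_singleton hb, pow_one] at h
  simpa [Submodule.span_singleton_le_iff_mem] using h

omit [Fintype F] [Fintype (Dual F V)] in
lemma rank_lt {W : Submodule F V} {v : V} (hv : v ∉ W) :
    finrank F W < finrank F (W ⊔ Submodule.span F {v} : Submodule F V) := by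
  apply Submodule.finrank_lt_finrank_of_lt
  refine lt_of_le_of_ne le_sup_left (fun h => hv ?_)
  rw [h]
  exact Submodule.mem_sup_right (Submodule.mem_span_singleton_self v)

open Classical in
lemma n_two {b : V} (hb : b ≠ 0) (b' : V) :
    (∑ a : Dual F V, (if a b = 0 ∧ a b' = 0 then (1 : ℝ) else 0)) * (Fintype.card F : ℝ) ^ 2
      ≤ (Fintype.card F : ℝ) ^ finrank F V
        + (if b' ∈ Submodule.span F {b} then (Fintype.card F : ℝ) ^ (finrank F V + 1) else 0) := by
  have hq := one_le_q (F := F)
  by_cases h : b' ∈ Submodule.span F {b}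
  · rw [if_pos h]
    have h1 : (∑ a : Dual F V, (if a b = 0 ∧ a b' = 0 then (1 : ℝ) else 0))
        ≤ ∑ a : Dual F V, (if a b = 0 then (1 : ℝ) else 0) := by
      refine sum_le_sum (fun a _ => ?_)
      by_cases h2 : a b = 0 <;> by_cases h3 : a b' = 0 <;> simp [h2, h3]
    have h2 := n_one (F := F) hb
    have h3 : (0 : ℝ) ≤ (Fintype.card F : ℝ) ^ finrank F V := by positivity
    calc _ ≤ (∑ a : Dual F V, (if a b = 0 then (1 : ℝ) else 0)) * (Fintype.card F : ℝ) ^ 2 :=
          mul_le_mul_of_nonneg_right h1 (by positivity)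
      _ = (Fintype.card F : ℝ) ^ (finrank F V + 1) := by rw [pow_succ _ (finrank F V), ← h2]; ring
      _ ≤ _ := by linarith
  · rw [if_neg h, add_zero]
    have h1 := ann_card (F := F) (Submodule.span F {b} ⊔ Submodule.span F {b'})
    have h2 := rank_lt (F := F) h
    rw [finrank_span_singleton hb] at h2
    simp only [sup_le_iff, Submodule.span_singleton_le_iff_mem, LinearMap.mem_ker] at h1
    rw [← h1]
    exact mul_le_mul_of_nonneg_left (pow_le_pow_right₀ hq h2)
      (sum_nonneg (fun a _ => by split_ifs <;> norm_num))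

open Classical in
/-- Second moment bound: few functionals vanish on much less than a `1/q` share of the weight. -/
lemma poor_count (w : V → ℝ) (c : ℝ) (hw : ∀ b, 0 ≤ w b) (hc : ∀ b, w b ≤ c) (h0 : w 0 = 0) :
    (∑ a : Dual F V, (if 2 * (Fintype.card F : ℝ) * (∑ b, if a b = 0 then w b else 0) ≤ ∑ b, w b
      then (1 : ℝ) else 0)) * (∑ b, w b) ≤ 4 * (Fintype.card F : ℝ) ^ (finrank F V + 2) * c := by
  set q : ℝ := (Fintype.card F : ℝ) with hq
  set D := finrank F V
  have hq1 : 1 ≤ q := one_le_q
  set P := ∑ b, w b with hP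
  have hP0 : 0 ≤ P := sum_nonneg (fun b _ => hw b)
  have hc0 : 0 ≤ c := (hw 0).trans (hc 0)
  set X : Dual F V → ℝ := fun a => ∑ b, if a b = 0 then w b else 0 with hX
  have hm1 : (∑ a, X a) * q = P * q ^ D := by
    simp only [hX]
    rw [sum_comm, sum_mul, hP, sum_mul]
    refine sum_congr rfl (fun b _ => ?_)
    by_cases hb : b = 0
    · simp [hb, h0]
    · rw [← n_one (F := F) hb, ← mul_assoc, mul_sum]
      congr 1
      refine sum_congr rfl (fun a _ => ?_)
      split_ifs <;> simp
  have hm2 : (∑ a, X a ^ 2) * q ^ 2 ≤ q ^ D * P ^ 2 + q ^ (D + 2) * c * P := by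
    have e1 : ∑ a, X a ^ 2 = ∑ b, ∑ b', w b * w b' *
        ∑ a : Dual F V, (if a b = 0 ∧ a b' = 0 then (1 : ℝ) else 0) := by
      calc ∑ a, X a ^ 2 = ∑ a : Dual F V, ∑ b, ∑ b', w b * w b' *
            (if a b = 0 ∧ a b' = 0 then (1 : ℝ) else 0) := by
            refine sum_congr rfl (fun a _ => ?_)
            rw [sq, hX, sum_mul_sum]
            refine sum_congr rfl (fun b _ => sum_congr rfl (fun b' _ => ?_))
            by_cases h2 : a b = 0 <;> by_cases h3 : a b' = 0 <;> simp [h2, h3]
        _ = _ := by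
            rw [sum_comm]
            refine sum_congr rfl (fun b _ => ?_)
            rw [sum_comm]
            refine sum_congr rfl (fun b' _ => ?_)
            rw [mul_sum]
    have e2 : ∀ b, (∑ b', w b * w b' *
        ∑ a : Dual F V, (if a b = 0 ∧ a b' = 0 then (1 : ℝ) else 0)) * q ^ 2
        ≤ w b * (q ^ D * P + q ^ (D + 2) * c) := by
      intro b
      by_cases hb : b = 0
      · simp [hb, h0]
      · have e3 : ∀ b', w b * w b' *
            (∑ a : Dual F V, (if a b = 0 ∧ a b' = 0 then (1 : ℝ) else 0)) * q ^ 2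
            ≤ w b * (q ^ D * w b'
              + q ^ (D + 1) * c * (if b' ∈ Submodule.span F {b} then (1 : ℝ) else 0)) := by
          intro b'
          have h1 := n_two (F := F) hb b'
          have h2 := mul_le_mul_of_nonneg_left h1 (mul_nonneg (hw b) (hw b'))
          rw [mul_assoc (w b * w b')]
          refine h2.trans ?_
          rw [mul_assoc]
          apply mul_le_mul_of_nonneg_left _ (hw b)
          have h3 := hc b'
          have h4 : 0 ≤ q ^ (D + 1) := by positivity
          split_ifs
          · nlinarith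
          · nlinarith
        rw [sum_mul]
        refine (sum_le_sum (fun b' _ => e3 b')).trans (le_of_eq ?_)
        rw [← mul_sum, sum_add_distrib, ← mul_sum, ← mul_sum, sub_card, finrank_span_singleton hb]
        ring
    rw [e1, sum_mul]
    refine (sum_le_sum (fun b _ => e2 b)).trans (le_of_eq ?_)
    rw [← sum_mul]
    ring
  have hvar : ∑ a, (q * X a - P) ^ 2 ≤ q ^ (D + 2) * c * P := by
    have : ∑ a, (q * X a - P) ^ 2
        = (∑ a, X a ^ 2) * q ^ 2 - 2 * P * ((∑ a, X a) * q) + P ^ 2 * ∑ _a : Dual F V, (1 : ℝ) := by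
      rw [sum_mul, sum_mul, mul_sum _ _ (2 * P), mul_sum _ _ (P ^ 2), ← sum_sub_distrib,
        ← sum_add_distrib]
      refine sum_congr rfl (fun a _ => ?_)
      ring
    rw [this, hm1, card_dual]
    nlinarith
  have hind : (∑ a : Dual F V, (if 2 * q * X a ≤ P then (1 : ℝ) else 0)) * P ^ 2
      ≤ 4 * ∑ a, (q * X a - P) ^ 2 := by
    rw [sum_mul, mul_sum]
    refine sum_le_sum (fun a _ => ?_)
    split_ifs with h
    · nlinarith
    · nlinarith [sq_nonneg (q * X a - P)]
  rcases hP0.eq_or_lt with h | h
  · rw [← h, mul_zero]; positivity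
  · apply le_of_mul_le_mul_right _ h
    nlinarith

end Count

end Pool.Agent.Lib.MP_05c1d7_co
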