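import Pool.Agent.Lib.MP_05c1d7_co.Pot
import Pool.Agent.Lib.MP_05c1d7_co.Basic

/-!
A lower bound for Ramsey numbers from random sequences of incident pairs, uniform in both
parameters (after Bradac).
-/

namespace Pool.Agent.Lib.MP_05c1d7_co
open Finset Module

section Low
variable {F : Type} [Field F] {V : Type} [AddCommGroup V] [Module F V]

lemma bad_of_indep : ∀ (n : ℕ) (W : V → Submodule F V) (k : ℕ) (x : Fin n → Om F V)
    (K : Finset (Fin n)), K.card = k → (∀ j ∈ K, al W (x j)) →
    (∀ i ∈ K, ∀ j ∈ K, i < j → (x i).1.1 (x j).1.2 = 0 → (x j).1.1 (x i).1.2 = 0) →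
    Bad al up n W k x := by
  intro n
  induction n with
  | zero =>
    intro W k x K hK _ _
    have : K = ∅ := Subsingleton.elim _ _
    subst this
    subst hK
    simp [Bad]
  | succ n ih =>
    intro W k x K hK h1 h2
    cases k with
    | zero => simp [Bad]
    | succ k =>
      have hc := Fin.card_filter_univ_succ' (fun i => i ∈ K)
      rw [filter_univ_mem, hK] at hc
      have h2' : ∀ i ∈ univ.filter (fun i : Fin n => i.succ ∈ K),
          ∀ j ∈ univ.filter (fun i : Fin n => i.succ ∈ K), i < j →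
          (Fin.tail x i).1.1 (Fin.tail x j).1.2 = 0 → (Fin.tail x j).1.1 (Fin.tail x i).1.2 = 0 :=
        fun i hi j hj hij => h2 _ (mem_filter.1 hi).2 _ (mem_filter.1 hj).2
          (Fin.succ_lt_succ_iff.2 hij)
      by_cases h0 : (0 : Fin (n + 1)) ∈ K
      · rw [if_pos h0] at hc
        right
        refine ⟨h1 0 h0, ih _ k _ _ (by omega) ?_ h2'⟩
        intro j hj
        have hj' := (mem_filter.1 hj).2
        have a1 : al W (x j.succ) := h1 _ hj'
        unfold al at a1 ⊢
        unfold up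
        split_ifs with h3
        · refine sup_le a1 ?_
          rw [Submodule.span_singleton_le_iff_mem, LinearMap.mem_ker]
          exact h2 0 h0 _ hj' (Fin.succ_pos j) h3
        · exact a1
      · rw [if_neg h0] at hc
        left
        exact ih W (k + 1) _ _ (by omega) (fun j hj => h1 _ (mem_filter.1 hj).2) h2'

variable [Fintype V]

lemma clique_rank {n : ℕ} (x : Fin n → Om F V) (K : Finset (Fin n)) :
    (∀ i ∈ K, ∀ j ∈ K, i < j → (x i).1.1 (x j).1.2 = 0 ∧ (x j).1.1 (x i).1.2 ≠ 0) →
    ∃ U : Submodule F V, K.card ≤ finrank F U ∧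
      ∀ a : Dual F V, (∀ i ∈ K, a (x i).1.2 = 0) → U ≤ LinearMap.ker a := by
  induction K using Finset.induction_on_min with
  | empty => exact fun _ => ⟨⊥, by simp, fun _ _ => bot_le⟩
  | insert i K hi ih =>
    intro h
    obtain ⟨U, hU1, hU2⟩ := ih (fun a ha b hb => h a (mem_insert_of_mem ha) b (mem_insert_of_mem hb))
    have hiK : i ∉ K := fun hh => lt_irrefl _ (hi i hh)
    by_cases hK : K = ∅
    · subst hK
      refine ⟨Submodule.span F {(x i).1.2}, ?_, ?_⟩
      · rw [finrank_span_singleton (x i).2.2.1]; simp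
      · intro a ha
        rw [Submodule.span_singleton_le_iff_mem, LinearMap.mem_ker]
        exact ha i (mem_insert_self _ _)
    · have hne : K.Nonempty := nonempty_iff_ne_empty.2 hK
      have hm := K.min'_mem hne
      have hker : U ≤ LinearMap.ker (x (K.min' hne)).1.1 := by
        apply hU2
        intro j hj
        rcases (K.min'_le j hj).eq_or_lt with h3 | h3
        · rw [← h3]; exact (x _).2.2.2
        · exact (h _ (mem_insert_of_mem hm) _ (mem_insert_of_mem hj) h3).1
      have hnot : (x i).1.2 ∉ U := fun hh =>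
        (h i (mem_insert_self _ _) _ (mem_insert_of_mem hm) (hi _ hm)).2 (hker hh)
      refine ⟨U ⊔ Submodule.span F {(x i).1.2}, ?_, ?_⟩
      · have := rank_lt (F := F) hnot
        rw [card_insert_of_notMem hiK]
        omega
      · intro a ha
        refine sup_le (hU2 a (fun j hj => ha j (mem_insert_of_mem hj))) ?_
        rw [Submodule.span_singleton_le_iff_mem, LinearMap.mem_ker]
        exact ha i (mem_insert_self _ _)

lemma not_arr_of_not_bad {n k : ℕ} (hD : 1 ≤ finrank F V) (x : Fin n → Om F V)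
    (hx : ¬ Bad al up n (fun _ => (⊥ : Submodule F V)) k x) : ¬ Arr n (finrank F V) k := by
  intro h
  rcases h (SimpleGraph.fromRel
    (fun i j => i < j ∧ (x i).1.1 (x j).1.2 = 0 ∧ (x j).1.1 (x i).1.2 ≠ 0)) with h1 | h1
  · apply h1
    intro K hK
    have hE : ∀ i ∈ K, ∀ j ∈ K, i < j → (x i).1.1 (x j).1.2 = 0 ∧ (x j).1.1 (x i).1.2 ≠ 0 := by
      intro i hi j hj hij
      have := hK.1 (mem_coe.2 hi) (mem_coe.2 hj) hij.ne
      rw [SimpleGraph.fromRel_adj] at this
      rcases this.2 with h3 | h3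
      · exact h3.2
      · exact absurd h3.1 (not_lt.2 hij.le)
    obtain ⟨U, hU1, hU2⟩ := clique_rank x K hE
    have hne : K.Nonempty := card_pos.1 (by rw [hK.2]; omega)
    have hm := K.min'_mem hne
    have hker : U ≤ LinearMap.ker (x (K.min' hne)).1.1 := by
      apply hU2
      intro j hj
      rcases (K.min'_le j hj).eq_or_lt with h3 | h3
      · rw [← h3]; exact (x _).2.2.2
      · exact (hE _ hm _ hj h3).1
    have htop : U = ⊤ := Submodule.eq_top_of_finrank_eq
      (le_antisymm (Submodule.finrank_le U) (hK.2 ▸ hU1))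
    apply (x (K.min' hne)).2.1
    rw [htop, top_le_iff, LinearMap.ker_eq_top] at hker
    exact hker
  · apply h1
    intro K hK
    apply hx
    refine bad_of_indep n _ k x K hK.2 (fun j _ => bot_le) ?_
    intro i hi j hj hij h3
    have := hK.1 (mem_coe.2 hi) (mem_coe.2 hj) hij.ne
    rw [SimpleGraph.compl_adj, SimpleGraph.fromRel_adj] at this
    by_contra h4
    exact this.2 ⟨hij.ne, Or.inl ⟨hij, h3, h4⟩⟩

variable [Fintype F]

lemma flag_bound_aux (c h m k n : ℕ) (hc : Fintype.card F = 2 ^ c) (hD : 2 ≤ finrank F V)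
    (hh : 1 ≤ h) (hm : finrank F V < m * h)
    (hk : 16 * 2 ^ c * finrank F V * c * (c + 2) * m ≤ k * 1)
    (hn : n.choose k * (28 * m * 4 ^ finrank F V * 2 ^ (c * (h + 1))) ^ k
      < 2 ^ (c * finrank F V * k)) : ¬ Arr n (finrank F V) k := by
  classical
  have : Finite (Dual F V) := DFunLike.finite _
  have : Fintype (Dual F V) := Fintype.ofFinite _
  set D := finrank F V with hDdef
  set q : ℝ := (Fintype.card F : ℝ) with hq
  have hq2 : 2 ≤ q := two_le_q
  have hq0 : 0 < q := by linarith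
  have hqc : q = 2 ^ c := by rw [hq, hc]; push_cast; rfl
  have hom := card_om (F := F) (V := V)
  rw [← hq, ← hDdef] at hom
  have hqD : q ^ 2 ≤ q ^ D := pow_le_pow_right₀ (by linarith) hD
  have hom1 : q ^ D * q ^ D ≤ 4 * ((Fintype.card (Om F V) : ℝ) * q) := by
    rw [hom]
    have a1 : q ^ D ≤ 2 * (q ^ D - 1) := by nlinarith
    have a2 : q ^ D ≤ 2 * (q ^ D - q) := by nlinarith
    have := mul_le_mul a1 a2 (by positivity) (by nlinarith)
    linarith
  have hom2 : (Fintype.card (Om F V) : ℝ) * q ≤ q ^ D * q ^ D := by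
    rw [hom]
    apply mul_le_mul (by linarith) (by linarith) (by nlinarith) (by positivity)
  have : Nonempty (Om F V) := by
    rw [← Fintype.card_pos_iff]
    by_contra h0
    have : Fintype.card (Om F V) = 0 := by omega
    rw [this] at hom1
    have : 0 < q ^ D * q ^ D := by positivity
    simp only [Nat.cast_zero, zero_mul, mul_zero] at hom1
    linarith
  have hm1 : (1 : ℝ) ≤ m := by
    have : 1 ≤ m := by
      rcases Nat.eq_zero_or_pos m with h0 | h0
      · rw [h0] at hm; omega
      · exact h0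
    exact_mod_cast this
  set τ := 16 * 2 ^ c * D * c with hτ
  have hγ : (1 - 1 / (16 * q)) ^ τ * q ^ D ≤ 1 := by
    have a0 : 0 ≤ 1 - 1 / (16 * q) := by
      rw [sub_nonneg, div_le_one (by positivity)]; linarith
    have a1 : (1 - 1 / (16 * q)) ^ (16 * 2 ^ c) ≤ 1 / 2 := by
      calc _ ≤ Real.exp (-(1 / (16 * q))) ^ (16 * 2 ^ c) :=
            pow_le_pow_left₀ a0 (by linarith [Real.add_one_le_exp (-(1 / (16 * q)))]) _
        _ = Real.exp (-1) := by
            rw [← Real.exp_nat_mul]
            congr 1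
            push_cast
            rw [← hqc]
            field_simp
        _ ≤ 1 / 2 := by
            have := Real.exp_neg_one_lt_d9
            linarith
    have a2 : (1 - 1 / (16 * q)) ^ τ ≤ (1 / 2) ^ (D * c) := by
      rw [hτ, mul_assoc (16 * 2 ^ c), pow_mul]
      exact pow_le_pow_left₀ (pow_nonneg a0 _) a1 _
    calc _ ≤ (1 / 2) ^ (D * c) * q ^ D := mul_le_mul_of_nonneg_right a2 (by positivity)
      _ = 1 := by rw [hqc, ← pow_mul, mul_comm c D, ← mul_pow]; simp
  set ρ : ℝ := 28 * m * 2 ^ D * q ^ (h + 1) / q ^ D with hρ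
  have hstep : ∀ W : V → Submodule F V, ∑ y : Om F V, (if al W y then Psi h m τ (up W y) else 0)
      ≤ ρ * Fintype.card (Om F V) * Psi h m τ W := by
    intro W
    refine (step_bound h m τ hh hm W).trans ?_
    apply mul_le_mul_of_nonneg_right _ (by linarith [one_le_Psi h m τ W])
    rw [← hq, ← hDdef]
    have a0 : 0 ≤ (1 - 1 / (16 * q)) ^ τ := by
      apply pow_nonneg
      rw [sub_nonneg, div_le_one (by positivity)]; linarith
    have b1 : (1 - 1 / (16 * q)) ^ τ * Fintype.card (Om F V) ≤ q ^ (D + h) := by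
      apply le_of_mul_le_mul_right _ hq0
      have b2 := mul_le_mul_of_nonneg_left hom2 a0
      have b3 := mul_le_mul_of_nonneg_right hγ (show 0 ≤ q ^ D by positivity)
      have b4 : q ^ D ≤ q ^ (D + h) * q := by
        rw [← pow_succ]; exact pow_le_pow_right₀ (by linarith) (by omega)
      nlinarith
    have b5 : 7 * m * 2 ^ D * q ^ (D + h) ≤ ρ * Fintype.card (Om F V) := by
      rw [hρ, div_mul_eq_mul_div, le_div_iff₀ (by positivity)]
      have b6 := mul_le_mul_of_nonneg_left hom1
        (show 0 ≤ 7 * (m : ℝ) * 2 ^ D * q ^ h by positivity)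
      calc _ = 7 * (m : ℝ) * 2 ^ D * q ^ h * (q ^ D * q ^ D) := by ring
        _ ≤ _ := b6
        _ = _ := by ring
    have b7 : (1 : ℝ) ≤ m * 2 ^ D := one_le_mul_of_one_le_of_one_le hm1 (one_le_pow₀ (by norm_num))
    have b8 : 0 ≤ q ^ (D + h) := by positivity
    nlinarith
  have hΨ : Psi h m τ (fun _ : V => (⊥ : Submodule F V)) ≤ 2 ^ (D * k) := by
    have a1 : ∀ l, 1 + Ph l (fun _ : V => (⊥ : Submodule F V)) ≤ 2 ^ ((c + 2) * D) := by
      intro l
      have a2 : Ph l (fun _ : V => (⊥ : Submodule F V)) ≤ q ^ D * 2 ^ D := by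
        calc _ ≤ ∑ _b : V, (1 : ℝ) * 2 ^ D := sum_le_sum (fun b _ => by
              rw [one_mul]; exact wt_le _ _ _)
          _ = _ := by rw [← sum_mul, card_V (F := F)]
      have a3 : (2 : ℝ) ^ ((c + 2) * D) = q ^ D * 2 ^ D * 2 ^ D := by rw [hqc]; ring
      have a4 : (2 : ℝ) ^ 1 ≤ 2 ^ D := pow_le_pow_right₀ (by norm_num) (by omega)
      have a5 : (1 : ℝ) ≤ q ^ D * 2 ^ D :=
        one_le_mul_of_one_le_of_one_le (one_le_pow₀ (by linarith)) (one_le_pow₀ (by norm_num))
      nlinarith
    calc _ ≤ ∏ _i ∈ range m, ((2 : ℝ) ^ ((c + 2) * D)) ^ τ :=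
          prod_le_prod (fun i _ => pow_nonneg
            (by linarith [Ph_nonneg ((i + 1) * h) (fun _ : V => (⊥ : Submodule F V))]) _)
            (fun i _ => pow_le_pow_left₀
              (by linarith [Ph_nonneg ((i + 1) * h) (fun _ : V => (⊥ : Submodule F V))]) (a1 _) _)
      _ = 2 ^ (D * (τ * (c + 2) * m)) := by
          rw [prod_const, card_range, ← pow_mul, ← pow_mul]; congr 1; ring
      _ ≤ _ := pow_le_pow_right₀ (by norm_num) (Nat.mul_le_mul_left _ (by omega))
  have hfin : Psi h m τ (fun _ : V => (⊥ : Submodule F V)) * (n.choose k * ρ ^ k) < 1 := by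
    have a1 : ((n.choose k * (28 * m * 4 ^ D * 2 ^ (c * (h + 1))) ^ k : ℕ) : ℝ)
        < ((2 ^ (c * D * k) : ℕ) : ℝ) := by exact_mod_cast hn
    push_cast at a1
    calc _ ≤ 2 ^ (D * k) * (n.choose k * ρ ^ k) :=
          mul_le_mul_of_nonneg_right hΨ (by positivity)
      _ = (n.choose k * (28 * m * 4 ^ D * 2 ^ (c * (h + 1))) ^ k) / 2 ^ (c * D * k) := by
          rw [hρ, div_pow, hqc, ← pow_mul, ← pow_mul, ← pow_mul,
            show (4 : ℝ) ^ D = 2 ^ D * 2 ^ D by rw [← mul_pow]; norm_num, pow_mul 2 D k]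
          simp only [mul_pow]
          ring
      _ < 1 := by rw [div_lt_one (by positivity)]; exact a1
  obtain ⟨x, hx⟩ := exists_not_bad al up (Psi h m τ) ρ (by positivity) (one_le_Psi h m τ) hstep
    n _ k hfin
  exact not_arr_of_not_bad (by omega) x hx

end Low

/-- The lower bound for Ramsey numbers, with all parameters explicit. -/
lemma flag_bound (c D h m k n : ℕ) (hc : 1 ≤ c) (hD : 2 ≤ D) (hh : 1 ≤ h) (hm : D < m * h)
    (hk : 16 * 2 ^ c * D * c * (c + 2) * m ≤ k)
    (hn : n.choose k * (28 * m * 4 ^ D * 2 ^ (c * (h + 1))) ^ k < 2 ^ (c * D * k)) :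
    ¬ Arr n D k := by
  classical
  have : Fintype (GaloisField 2 c) := Fintype.ofFinite _
  have hcard : Fintype.card (GaloisField 2 c) = 2 ^ c := by
    rw [← Nat.card_eq_fintype_card]; exact GaloisField.card 2 c (by omega)
  have hfr : finrank (GaloisField 2 c) (Fin D → GaloisField 2 c) = D := by simp
  have := flag_bound_aux (F := GaloisField 2 c) (V := Fin D → GaloisField 2 c) c h m k n hcard
    (by rw [hfr]; exact hD) hh (by rw [hfr]; exact hm) (by rw [hfr, mul_one]; exact hk)
    (by rw [hfr]; exact hn)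
  rwa [hfr] at this

end Pool.Agent.Lib.MP_05c1d7_co
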