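import Pool.Agent.Lib.MP_05c1d7_co.Lower

/-!
The diagonal conjecture holds at almost all pairs far from the diagonal.
-/

namespace Pool.Agent.Lib.MP_05c1d7_co
open Finset

/-- The diagonal conjecture holds at the pair `(s,t)` against every admissible pair. -/
def DiagAt (s t : ℕ) : Prop :=
  ∀ s₁ t₁ : ℕ, 1 ≤ s₁ → s₁ ≤ s → t ≤ t₁ → s₁ + t₁ ≤ s + t → R s₁ t₁ ≤ R s t

lemma choose_mul_pow_le (n k : ℕ) : n.choose k * k ^ k ≤ (3 * n) ^ k := by
  have h1 : (n.choose k : ℝ) ≤ (n : ℝ) ^ k / k.factorial := by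
    have := Nat.choose_le_pow_div (α := ℝ) k n
    exact_mod_cast this
  have h2 : (k : ℝ) ^ k / k.factorial ≤ 3 ^ k := by
    calc _ ≤ Real.exp k := Real.pow_div_factorial_le_exp _ (by positivity) k
      _ = Real.exp 1 ^ k := by rw [← Real.exp_nat_mul, mul_one]
      _ ≤ 3 ^ k := pow_le_pow_left₀ (by positivity) (by have := Real.exp_one_lt_d9; linarith) _
  have h3 : ((n.choose k * k ^ k : ℕ) : ℝ) ≤ (((3 * n) ^ k : ℕ) : ℝ) := by
    push_cast
    calc _ ≤ (n : ℝ) ^ k / k.factorial * (k : ℝ) ^ k :=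
          mul_le_mul_of_nonneg_right h1 (by positivity)
      _ = (n : ℝ) ^ k * ((k : ℝ) ^ k / k.factorial) := by ring
      _ ≤ (n : ℝ) ^ k * 3 ^ k := mul_le_mul_of_nonneg_left h2 (by positivity)
      _ = _ := by ring
  exact_mod_cast h3

lemma lower_pow (a b c S N s e : ℕ) (hN : 2 ^ a * S ≤ N) (hb : a < 2 ^ (b + 1))
    (hc : c + 3 * b + 8 = a) (hc1 : 1 ≤ c) (hs : 2 ≤ s) (hsS : s ≤ S) (h2 : 2 * S ≤ N)
    (he : e + 3 * s + b + 9 + 2 * c ≤ a + c * s) : 2 ^ e < R s (N - s) := by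
  set k := N - s with hk
  have hk2 : 2 ^ a * S ≤ 2 * k := by omega
  have hk1 : 1 ≤ k := by omega
  have hh : c * (s / c) ≤ s := Nat.mul_div_le s c
  apply lt_R_of_not_arr (by omega) hk1
  apply flag_bound c s (s / c + 1) c k _ hc1 hs (Nat.le_add_left 1 _) (Nat.lt_mul_div_succ s hc1)
  · have a1 : c ≤ 2 ^ (b + 1) := by omega
    have a2 : c + 2 ≤ 2 ^ (b + 1) := by omega
    have a3 : 2 * (16 * 2 ^ c * s * c * (c + 2) * c)
        ≤ 2 * (16 * 2 ^ c * S * 2 ^ (b + 1) * 2 ^ (b + 1) * 2 ^ (b + 1)) := by gcongr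
    have a4 : 2 * (16 * 2 ^ c * S * 2 ^ (b + 1) * 2 ^ (b + 1) * 2 ^ (b + 1)) = 2 ^ a * S := by
      rw [← hc]; ring
    omega
  · have a1 : 28 * c * 4 ^ s * 2 ^ (c * (s / c + 1 + 1)) ≤ 2 ^ (b + 6 + 3 * s + 2 * c) := by
      have b1 : 28 * c ≤ 32 * 2 ^ (b + 1) := by omega
      have b2 : 2 ^ (c * (s / c + 1 + 1)) ≤ 2 ^ (s + 2 * c) :=
        Nat.pow_le_pow_right (by norm_num) (by nlinarith)
      calc _ ≤ 32 * 2 ^ (b + 1) * 4 ^ s * 2 ^ (s + 2 * c) := by gcongr
        _ = _ := by rw [show (4 : ℕ) = 2 ^ 2 by norm_num, ← pow_mul]; ring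
    have a2 : 3 * 2 ^ e * 2 ^ (b + 6 + 3 * s + 2 * c) < k * 2 ^ (c * s) := by
      have b1 : 2 ^ (e + 3 * s + b + 9 + 2 * c) ≤ 2 ^ (a + c * s) :=
        Nat.pow_le_pow_right (by norm_num) he
      have b2 : 2 ^ (e + 3 * s + b + 9 + 2 * c) = 8 * (2 ^ e * 2 ^ (b + 6 + 3 * s + 2 * c)) := by
        ring
      have b3 : 2 ^ (a + c * s) ≤ 2 * (k * 2 ^ (c * s)) := by
        have : 2 ^ a ≤ 2 * k := le_trans (Nat.le_mul_of_pos_right _ (by omega)) hk2
        calc _ = 2 ^ a * 2 ^ (c * s) := pow_add _ _ _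
          _ ≤ 2 * k * 2 ^ (c * s) := Nat.mul_le_mul_right _ this
          _ = _ := by ring
      have b4 : 0 < 2 ^ e * 2 ^ (b + 6 + 3 * s + 2 * c) := by positivity
      rw [mul_assoc]
      omega
    apply lt_of_mul_lt_mul_right (a := k ^ k) _ (Nat.zero_le _)
    calc _ = (2 ^ e).choose k * k ^ k * (28 * c * 4 ^ s * 2 ^ (c * (s / c + 1 + 1))) ^ k := by ring
      _ ≤ (3 * 2 ^ e) ^ k * (2 ^ (b + 6 + 3 * s + 2 * c)) ^ k :=
          Nat.mul_le_mul (choose_mul_pow_le _ _) (Nat.pow_le_pow_left a1 _)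
      _ = (3 * 2 ^ e * 2 ^ (b + 6 + 3 * s + 2 * c)) ^ k := (mul_pow _ _ _).symm
      _ < (k * 2 ^ (c * s)) ^ k := Nat.pow_lt_pow_left a2 (by omega)
      _ = _ := by rw [mul_pow, ← pow_mul, mul_comm]

lemma diagAt_of_record {N s : ℕ} (hs : s < N)
    (h : ∀ s', 1 ≤ s' → s' ≤ s → R s' (N - s') ≤ R s (N - s)) : DiagAt s (N - s) := by
  intro s₁ t₁ h1 h2 h3 h4
  exact (R_mono_right h1 (by omega) (by omega)).trans (h s₁ h1 h2)

lemma R_le_pow {N s : ℕ} (hs : 1 ≤ s) (hN : s < N) : R s (N - s) ≤ N ^ (s - 1) := by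
  obtain ⟨u, rfl⟩ : ∃ u, s = u + 1 := ⟨s - 1, by omega⟩
  obtain ⟨v, hv⟩ : ∃ v, N - (u + 1) = v + 1 := ⟨N - (u + 1) - 1, by omega⟩
  rw [hv]
  calc _ ≤ (u + v).choose u := R_le_choose u v
    _ ≤ (u + v) ^ u := Nat.choose_le_pow _ _
    _ ≤ _ := Nat.pow_le_pow_left (by omega) _

open Classical in
theorem almost_all (S N : ℕ) (hS : 1 ≤ S) (hN : 4 * S ≤ N) :
    ((Icc 1 S).filter (fun s => ¬ DiagAt s (N - s))).card * Nat.log 2 (N / S)
      ≤ 142 * S * Nat.log 2 (Nat.log 2 (N / S)) := by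
  set a := Nat.log 2 (N / S) with ha
  set b := Nat.log 2 a with hb
  have h4 : 4 ≤ N / S := (Nat.le_div_iff_mul_le hS).2 hN
  have ha2 : 2 ≤ a := Nat.le_log_of_pow_le (by norm_num) (by omega)
  have hb1 : 1 ≤ b := Nat.le_log_of_pow_le (by norm_num) (by omega)
  have hNa : 2 ^ a * S ≤ N :=
    (Nat.le_div_iff_mul_le hS).1 (Nat.pow_log_le_self 2 (by omega))
  have hNa' : N < 2 ^ (a + 1) * S :=
    (Nat.div_lt_iff_lt_mul hS).1 (Nat.lt_pow_succ_log_self (by norm_num) _)
  have hab : a < 2 ^ (b + 1) := Nat.lt_pow_succ_log_self (by norm_num) _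
  set I := ((Icc 1 S).filter (fun s => ¬ DiagAt s (N - s))).card with hI
  set V := ((Icc 1 S).filter (fun s => DiagAt s (N - s))).card with hV
  have hIV : V + I = S := by
    rw [hV, hI, card_filter_add_card_filter_not]; simp
  by_cases htriv : a ≤ 142 * b
  · have : I ≤ S := by omega
    calc I * a ≤ S * (142 * b) := Nat.mul_le_mul this htriv
      _ = _ := by ring
  obtain ⟨c, hc⟩ : ∃ c, c + 3 * b + 8 = a := ⟨a - 3 * b - 8, by omega⟩
  have hc1 : 1 ≤ c := by omega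
  by_cases hA : 27 * b * S ≤ a
  · have : I = 0 := by
      rw [hI, card_eq_zero, filter_eq_empty_iff]
      intro s hs
      obtain ⟨hs1, hs2⟩ := mem_Icc.1 hs
      rw [not_not]
      apply diagAt_of_record (by omega)
      intro s' h1 h2
      rcases h2.eq_or_lt with h3 | h3
      · rw [h3]
      · obtain ⟨u, rfl⟩ : ∃ u, s = u + 2 := ⟨s - 2, by omega⟩
        have a1 : S ≤ 2 ^ (b + 1) := by nlinarith
        have a2 : N ≤ 2 ^ (a + b + 2) := by
          calc N ≤ 2 ^ (a + 1) * S := hNa'.le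
            _ ≤ 2 ^ (a + 1) * 2 ^ (b + 1) := Nat.mul_le_mul_left _ a1
            _ = _ := by ring
        have a3 := lower_pow a b c S N (u + 2) ((a + b + 2) * u) hNa hab hc hc1 (by omega) hs2
          (by omega) (by
            have : 27 * b * (u + 2) ≤ a := le_trans (Nat.mul_le_mul_left _ hs2) hA
            rw [← hc] at this ⊢
            nlinarith)
        calc _ ≤ N ^ (s' - 1) := R_le_pow h1 (by omega)
          _ ≤ N ^ u := Nat.pow_le_pow_right (by omega) (by omega)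
          _ ≤ (2 ^ (a + b + 2)) ^ u := Nat.pow_le_pow_left a2 _
          _ = 2 ^ ((a + b + 2) * u) := by rw [← pow_mul]
          _ ≤ _ := a3.le
    rw [this]; simp
  have hA' : a < 27 * b * S := not_le.1 hA
  set j := b * S / a + 1 with hj
  have hj1 : b * S < a * j := Nat.lt_mul_div_succ _ (by omega)
  have hj2 : a * j ≤ 28 * b * S := by
    have : a * (b * S / a) ≤ b * S := Nat.mul_div_le _ _
    rw [hj]; nlinarith
  have hbS : S ≤ b * S := Nat.le_mul_of_pos_left _ hb1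
  have hrec := records (fun s => R s (N - s)) 1 S (2 ^ (87 * b * S)) (2 ^ (a + b + 3))
    Nat.one_le_two_pow
    (by
      intro s h1 h2
      obtain rfl : s = 1 := by omega
      exact (R_le_pow le_rfl (by omega)).trans (by simpa using Nat.one_le_two_pow))
    le_rfl
    (by
      intro s g h1 h2 hg hf
      have hr := ratio_R (s := s) (t := N - (s + 1)) j h1 (by omega)
      have a1 : R s (N - (s + 1)) ≤ g := (R_mono_right h1 (by omega) (by omega)).trans hf
      have a2 : N - (s + 1) ≤ (j + 1) * 2 ^ (a + b + 2) := by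
        calc N - (s + 1) ≤ 2 ^ (a + 1) * S := by omega
          _ ≤ 2 ^ (a + 1) * (2 ^ (b + 1) * (j + 1)) := by
              apply Nat.mul_le_mul_left
              calc S ≤ a * j := by omega
                _ ≤ _ := Nat.mul_le_mul hab.le (by omega)
          _ = _ := by ring
      have a3 : 1 + (N - (s + 1)) ≤ g := by
        calc 1 + (N - (s + 1)) ≤ 2 ^ (a + 1) * S := by omega
          _ ≤ 2 ^ (a + 1) * 2 ^ S := Nat.mul_le_mul_left _ Nat.lt_two_pow_self.le
          _ = 2 ^ (a + 1 + S) := (pow_add _ _ _).symm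
          _ ≤ 2 ^ (87 * b * S) := Nat.pow_le_pow_right (by norm_num) (by nlinarith)
          _ ≤ g := hg
      have a4 : (s + j).choose s * ∑ i ∈ range (j + 1), (N - (s + 1)).choose i ≤ g := by
        have b1 := sum_choose_le (N - (s + 1)) j (2 ^ (a + 1)) S Nat.one_le_two_pow
          (by rw [mul_comm]; omega)
        have b2 : (s + j).choose s ≤ 2 ^ (S + j) :=
          (Nat.choose_le_two_pow _ _).trans (Nat.pow_le_pow_right (by norm_num) (by omega))
        have b3 : 3 ^ S ≤ (2 ^ 2) ^ S := Nat.pow_le_pow_left (by norm_num) _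
        calc _ ≤ 2 ^ (S + j) * ((2 ^ (a + 1)) ^ j * (2 ^ 2) ^ S) :=
              Nat.mul_le_mul b2 (b1.trans (Nat.mul_le_mul_left _ b3))
          _ = 2 ^ (S + j + ((a + 1) * j + 2 * S)) := by
              rw [← pow_mul, ← pow_mul, ← pow_add, ← pow_add]
          _ ≤ 2 ^ (87 * b * S) := Nat.pow_le_pow_right (by norm_num) (by nlinarith)
          _ ≤ g := hg
      apply le_of_mul_le_mul_left (a := j + 1) _ (Nat.succ_pos j)
      calc _ ≤ _ := hr
        _ ≤ (j + 1) * (g + g) + (j + 1) * 2 ^ (a + b + 2) * g :=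
            Nat.add_le_add (Nat.mul_le_mul_left _ (Nat.add_le_add a3 a4)) (Nat.mul_le_mul a2 a1)
        _ = (j + 1) * ((2 + 2 ^ (a + b + 2)) * g) := by ring
        _ ≤ _ := by
            apply Nat.mul_le_mul_left
            apply Nat.mul_le_mul_right
            have : 2 ^ 1 ≤ 2 ^ (a + b + 2) := Nat.pow_le_pow_right (by norm_num) (by omega)
            have e : 2 ^ (a + b + 3) = 2 ^ (a + b + 2) + 2 ^ (a + b + 2) := by ring
            rw [e]
            exact Nat.add_le_add_right this _)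
    (fun s => DiagAt s (N - s))
    (fun s _ h2 h => diagAt_of_record (by omega) h) S le_rfl S hS le_rfl
  rw [← hV, ← pow_mul, ← pow_add] at hrec
  by_cases hS1 : S = 1
  · have : I ≤ 1 := by omega
    subst hS1
    nlinarith
  have key : a + c * S ≤ 3 * S + b + 9 + 2 * c + (87 * b * S + (a + b + 3) * V) := by
    by_cases hneg : 3 * S + b + 9 + 2 * c ≤ a + c * S
    · have a3 := lower_pow a b c S N S (a + c * S - (3 * S + b + 9 + 2 * c)) hNa hab hc hc1
        (by omega) le_rfl (by omega) (by omega)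
      have a4 := (Nat.pow_lt_pow_iff_right (by norm_num : 1 < 2)).1 (lt_of_lt_of_le a3 hrec)
      omega
    · omega
  have e1 : (a + b + 3) * S = (a + b + 3) * V + (a + b + 3) * I := by rw [← hIV]; ring
  have e2 : a * S = c * S + 3 * (b * S) + 8 * S := by rw [← hc]; ring
  have e3 : b ≤ b * S := Nat.le_mul_of_pos_right _ hS
  nlinarith

end Pool.Agent.Lib.MP_05c1d7_co
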