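import Mathlib

/-!
An adaptive union bound: a sequence is bad if it has a subsequence of a given length all of whose
steps are allowed; a potential function bounds the number of bad sequences.
-/

namespace Pool.Agent.Lib.MP_05c1d7_co
open Finset

section Abstract
variable {σ Ω : Type}

/-- `Bad al up n W k x`: the sequence `x` has a subsequence of length `k` that is allowed when
started from the state `W`. -/
def Bad (al : σ → Ω → Prop) (up : σ → Ω → σ) : (n : ℕ) → σ → ℕ → (Fin n → Ω) → Prop
  | _, _, 0, _ => True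
  | 0, _, _ + 1, _ => False
  | n + 1, W, k + 1, x =>
      Bad al up n W (k + 1) (Fin.tail x) ∨ (al W (x 0) ∧ Bad al up n (up W (x 0)) k (Fin.tail x))

open Classical in
lemma bad_count [Fintype Ω] (al : σ → Ω → Prop) (up : σ → Ω → σ) (Ψ : σ → ℝ) (ρ : ℝ)
    (hρ : 0 ≤ ρ) (h1 : ∀ W, 1 ≤ Ψ W)
    (hstep : ∀ W, ∑ y, (if al W y then Ψ (up W y) else 0) ≤ ρ * Fintype.card Ω * Ψ W) :
    ∀ (n : ℕ) (W : σ) (k : ℕ), ∑ x : Fin n → Ω, (if Bad al up n W k x then (1 : ℝ) else 0)
      ≤ Ψ W * (n.choose k * ρ ^ k * (Fintype.card Ω : ℝ) ^ n) := by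
  intro n
  induction n with
  | zero =>
    intro W k
    cases k with
    | zero => simpa [Bad] using h1 W
    | succ k => simp [Bad]
  | succ n ih =>
    intro W k
    cases k with
    | zero =>
      have : (0 : ℝ) ≤ (Fintype.card Ω : ℝ) ^ (n + 1) := by positivity
      have h2 := h1 W
      simp only [Bad, if_true, sum_const, card_univ, Fintype.card_fun, Fintype.card_fin,
        nsmul_eq_mul, mul_one, Nat.choose_zero_right, Nat.cast_one, pow_zero, one_mul,
        Nat.cast_pow]
      nlinarith
    | succ k =>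
      rw [← (Fin.consEquiv (fun _ : Fin (n + 1) => Ω)).sum_comp, Fintype.sum_prod_type]
      set c : ℝ := n.choose k * ρ ^ k * (Fintype.card Ω : ℝ) ^ n with hc
      have hc0 : 0 ≤ c := by positivity
      have hy : ∀ y : Ω, ∑ x : Fin n → Ω, (if Bad al up (n + 1) W (k + 1)
          ((Fin.consEquiv (fun _ : Fin (n + 1) => Ω)) (y, x)) then (1 : ℝ) else 0)
          ≤ Ψ W * (n.choose (k + 1) * ρ ^ (k + 1) * (Fintype.card Ω : ℝ) ^ n)
            + (if al W y then Ψ (up W y) else 0) * c := by
        intro y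
        have e : ∀ x : Fin n → Ω, (if Bad al up (n + 1) W (k + 1)
            ((Fin.consEquiv (fun _ : Fin (n + 1) => Ω)) (y, x)) then (1 : ℝ) else 0)
            ≤ (if Bad al up n W (k + 1) x then (1 : ℝ) else 0)
              + (if al W y then (if Bad al up n (up W y) k x then (1 : ℝ) else 0) else 0) := by
          intro x
          have : Bad al up (n + 1) W (k + 1) ((Fin.consEquiv (fun _ : Fin (n + 1) => Ω)) (y, x))
              ↔ (Bad al up n W (k + 1) x ∨ (al W y ∧ Bad al up n (up W y) k x)) := by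
            simp [Bad, Fin.consEquiv]
          rw [this]
          by_cases a1 : Bad al up n W (k + 1) x <;> by_cases a2 : al W y <;>
            by_cases a3 : Bad al up n (up W y) k x <;> simp [a1, a2, a3]
        refine (sum_le_sum (fun x _ => e x)).trans ?_
        rw [sum_add_distrib]
        refine add_le_add (ih W (k + 1)) ?_
        by_cases a2 : al W y
        · simp only [a2, if_true]
          exact ih (up W y) k
        · simp [a2]
      refine (sum_le_sum (fun y _ => hy y)).trans ?_
      rw [sum_add_distrib, sum_const, ← sum_mul, card_univ, nsmul_eq_mul]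
      have h3 := mul_le_mul_of_nonneg_right (hstep W) hc0
      rw [Nat.choose_succ_succ]
      push_cast
      have e4 : ρ * (Fintype.card Ω : ℝ) * Ψ W * c
          = Ψ W * (n.choose k * ρ ^ (k + 1) * (Fintype.card Ω : ℝ) ^ (n + 1)) := by
        rw [hc]; ring
      rw [e4] at h3
      have e5 : (Fintype.card Ω : ℝ) * (Ψ W * (n.choose (k + 1) * ρ ^ (k + 1)
          * (Fintype.card Ω : ℝ) ^ n))
          = Ψ W * (n.choose (k + 1) * ρ ^ (k + 1) * (Fintype.card Ω : ℝ) ^ (n + 1)) := by ring
      rw [e5, Nat.succ_eq_add_one]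
      nlinarith

open Classical in
lemma exists_not_bad [Fintype Ω] [Nonempty Ω] (al : σ → Ω → Prop) (up : σ → Ω → σ) (Ψ : σ → ℝ)
    (ρ : ℝ) (hρ : 0 ≤ ρ) (h1 : ∀ W, 1 ≤ Ψ W)
    (hstep : ∀ W, ∑ y, (if al W y then Ψ (up W y) else 0) ≤ ρ * Fintype.card Ω * Ψ W)
    (n : ℕ) (W : σ) (k : ℕ) (h : Ψ W * (n.choose k * ρ ^ k) < 1) :
    ∃ x : Fin n → Ω, ¬ Bad al up n W k x := by
  by_contra hall
  push Not at hall
  have h2 := bad_count al up Ψ ρ hρ h1 hstep n W k
  simp only [hall, if_true, sum_const, card_univ, Fintype.card_fun, Fintype.card_fin,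
    nsmul_eq_mul, mul_one, Nat.cast_pow] at h2
  have hpos : (0 : ℝ) < (Fintype.card Ω : ℝ) ^ n := by
    have : 0 < Fintype.card Ω := Fintype.card_pos
    positivity
  have := mul_lt_mul_of_pos_right h hpos
  nlinarith

end Abstract

end Pool.Agent.Lib.MP_05c1d7_co
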