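import Pool.Agent.Lib.MP_05c1d7_co.Flag
import Pool.Agent.Lib.MP_05c1d7_co.Union

/-!
The potential function for forward independent sequences of incident pairs.
-/

namespace Pool.Agent.Lib.MP_05c1d7_co
open Finset Module

section Pot
variable {F : Type} [Field F] {V : Type} [AddCommGroup V] [Module F V]

/-- Incident pairs of a nonzero functional and a nonzero vector. -/
abbrev Om (F V : Type) [Field F] [AddCommGroup V] [Module F V] : Type :=
  {y : Dual F V × V // y.1 ≠ 0 ∧ y.2 ≠ 0 ∧ y.1 y.2 = 0}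

/-- A step is allowed if the functional kills the subspace attached to the vector. -/
def al (W : V → Submodule F V) (y : Om F V) : Prop := W y.1.2 ≤ LinearMap.ker y.1.1

open Classical in
/-- The state after a step. -/
noncomputable def up (W : V → Submodule F V) (y : Om F V) : V → Submodule F V :=
  fun b => if y.1.1 b = 0 then W b ⊔ Submodule.span F {y.1.2} else W b

open Classical in
/-- The weight of a vector at level `l`. -/
noncomputable def wt (l : ℕ) (W : V → Submodule F V) (b : V) : ℝ :=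
  if b ≠ 0 ∧ finrank F (W b) < l then 2 ^ (finrank F V - finrank F (W b)) else 0

lemma wt_nonneg (l : ℕ) (W : V → Submodule F V) (b : V) : 0 ≤ wt l W b := by
  unfold wt; split_ifs <;> positivity

lemma wt_le (l : ℕ) (W : V → Submodule F V) (b : V) : wt l W b ≤ 2 ^ finrank F V := by
  unfold wt; split_ifs
  · exact pow_le_pow_right₀ (by norm_num) (Nat.sub_le _ _)
  · positivity

lemma wt_zero (l : ℕ) (W : V → Submodule F V) : wt l W 0 = 0 := by
  unfold wt; simp

lemma one_le_wt {l : ℕ} {W : V → Submodule F V} {b : V} (hb : b ≠ 0) (h : finrank F (W b) < l) :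
    1 ≤ wt l W b := by
  unfold wt; rw [if_pos ⟨hb, h⟩]; exact one_le_pow₀ (by norm_num)

lemma wt_mono {l : ℕ} {W W' : V → Submodule F V} {b : V}
    (h : finrank F (W b) ≤ finrank F (W' b)) : wt l W' b ≤ wt l W b := by
  by_cases h1 : b ≠ 0 ∧ finrank F (W' b) < l
  · unfold wt
    rw [if_pos h1, if_pos ⟨h1.1, lt_of_le_of_lt h h1.2⟩]
    exact pow_le_pow_right₀ (by norm_num) (by omega)
  · have := wt_nonneg l W b
    unfold wt at this ⊢
    rwa [if_neg h1]

variable [Fintype V]

lemma wt_half {l : ℕ} {W W' : V → Submodule F V} {b : V}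
    (h : finrank F (W b) < finrank F (W' b)) : wt l W' b ≤ wt l W b / 2 := by
  by_cases h1 : b ≠ 0 ∧ finrank F (W' b) < l
  · unfold wt
    rw [if_pos h1, if_pos ⟨h1.1, lt_trans h h1.2⟩]
    have h2 := Submodule.finrank_le (W' b)
    rw [le_div_iff₀ (by norm_num), ← pow_succ]
    exact pow_le_pow_right₀ (by norm_num) (by omega)
  · have := wt_nonneg l W b
    unfold wt at this ⊢
    rw [if_neg h1]
    positivity

lemma rank_up (W : V → Submodule F V) (y : Om F V) (b : V) :
    finrank F (W b) ≤ finrank F (up W y b) := by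
  apply Submodule.finrank_mono
  unfold up
  split_ifs
  · exact le_sup_left
  · exact le_rfl

/-- The total weight at level `l`. -/
noncomputable def Ph (l : ℕ) (W : V → Submodule F V) : ℝ := ∑ b, wt l W b

open Classical in
/-- The weight killed by a functional. -/
noncomputable def Xs (l : ℕ) (W : V → Submodule F V) (a : Dual F V) : ℝ :=
  ∑ b, if a b = 0 then wt l W b else 0

open Classical in
/-- The weight of the vectors whose subspace contains `v`. -/
noncomputable def Ys (l : ℕ) (W : V → Submodule F V) (v : V) : ℝ :=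
  ∑ b, if v ∈ W b then wt l W b else 0

lemma Ph_nonneg (l : ℕ) (W : V → Submodule F V) : 0 ≤ Ph l W :=
  sum_nonneg (fun b _ => wt_nonneg l W b)

lemma Ph_up_le (l : ℕ) (W : V → Submodule F V) (y : Om F V) : Ph l (up W y) ≤ Ph l W :=
  sum_le_sum (fun b _ => wt_mono (rank_up W y b))

lemma Ph_up (l : ℕ) (W : V → Submodule F V) (y : Om F V) :
    Ph l (up W y) ≤ Ph l W - (Xs l W y.1.1 - Ys l W y.1.2) / 2 := by
  unfold Ph Xs Ys
  rw [← sum_sub_distrib, sum_div, ← sum_sub_distrib]
  refine sum_le_sum (fun b _ => ?_)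
  have h1 : wt l (up W y) b ≤ wt l W b := wt_mono (rank_up W y b)
  have h0 := wt_nonneg l W b
  by_cases ha : y.1.1 b = 0 <;> by_cases hv : y.1.2 ∈ W b
  · simp only [ha, hv, if_true]; linarith
  · have : wt l (up W y) b ≤ wt l W b / 2 := by
      apply wt_half
      unfold up
      rw [if_pos ha]
      exact rank_lt hv
    simp only [ha, hv, if_true, if_false]; linarith
  · simp only [ha, hv, if_true, if_false]; linarith
  · simp only [ha, hv, if_false]; linarith

variable [Fintype F]

open Classical in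
lemma pop_count (l : ℕ) (W : V → Submodule F V) :
    ∑ v : V, (if 0 < Ph l W ∧ Ph l W ≤ 4 * (Fintype.card F : ℝ) * Ys l W v then (1 : ℝ) else 0)
      ≤ 4 * (Fintype.card F : ℝ) ^ l := by
  set q : ℝ := (Fintype.card F : ℝ) with hq
  have hq1 : 1 ≤ q := one_le_q
  by_cases hP : 0 < Ph l W
  · have h1 : (∑ v, Ys l W v) * q ≤ Ph l W * q ^ l := by
      unfold Ys Ph
      rw [sum_comm, sum_mul, sum_mul]
      refine sum_le_sum (fun b _ => ?_)
      have e : ∑ v : V, (if v ∈ W b then wt l W b else 0) = wt l W b * q ^ finrank F (W b) := by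
        rw [← sub_card, mul_sum]
        refine sum_congr rfl (fun v _ => ?_)
        split_ifs <;> simp
      rw [e, mul_assoc, ← pow_succ]
      by_cases h2 : finrank F (W b) < l
      · exact mul_le_mul_of_nonneg_left (pow_le_pow_right₀ hq1 h2) (wt_nonneg _ _ _)
      · have : wt l W b = 0 := by unfold wt; rw [if_neg (fun h => h2 h.2)]
        rw [this]; simp
    apply le_of_mul_le_mul_right _ hP
    calc _ ≤ 4 * ((∑ v, Ys l W v) * q) := by
          rw [sum_mul, sum_mul, mul_sum]
          refine sum_le_sum (fun v _ => ?_)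
          have h0 : 0 ≤ Ys l W v :=
            sum_nonneg (fun b _ => by split_ifs; exacts [wt_nonneg _ _ _, le_rfl])
          split_ifs with h
          · linarith [h.2]
          · rw [zero_mul]; positivity
      _ ≤ _ := by linarith
  · simp only [hP, false_and, if_false, sum_const_zero]
    positivity

variable [Fintype (Dual F V)]

open Classical in
lemma s1_count (i h : ℕ) (W : V → Submodule F V) :
    ∑ p : Dual F V × V, (if (0 < Ph ((i + 1) * h) W ∧
        Ph ((i + 1) * h) W ≤ 4 * (Fintype.card F : ℝ) * Ys ((i + 1) * h) W p.2)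
        ∧ i * h ≤ finrank F (W p.2) ∧ W p.2 ≤ LinearMap.ker p.1 then (1 : ℝ) else 0)
      ≤ 4 * (Fintype.card F : ℝ) ^ (finrank F V + h) := by
  set q : ℝ := (Fintype.card F : ℝ) with hq
  have hq1 : 1 ≤ q := one_le_q
  have hpos : 0 < q ^ (i * h) := by positivity
  apply le_of_mul_le_mul_right _ hpos
  rw [Fintype.sum_prod_type_right, sum_mul]
  calc _ ≤ ∑ v : V, (if 0 < Ph ((i + 1) * h) W ∧
        Ph ((i + 1) * h) W ≤ 4 * q * Ys ((i + 1) * h) W v then (1 : ℝ) else 0)
        * q ^ finrank F V := by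
        refine sum_le_sum (fun v _ => ?_)
        by_cases h1 : 0 < Ph ((i + 1) * h) W ∧ Ph ((i + 1) * h) W ≤ 4 * q * Ys ((i + 1) * h) W v
        · by_cases h2 : i * h ≤ finrank F (W v)
          · simp only [h1, h2, true_and, and_self, if_true, one_mul]
            rw [← ann_card (W v)]
            exact mul_le_mul_of_nonneg_left (pow_le_pow_right₀ hq1 h2)
              (sum_nonneg (fun a _ => by split_ifs <;> norm_num))
          · simp only [h2, false_and, and_false, if_false, sum_const_zero, zero_mul]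
            positivity
        · simp only [h1, false_and, if_false, sum_const_zero, zero_mul, le_refl]
    _ ≤ 4 * q ^ ((i + 1) * h) * q ^ finrank F V := by
        rw [← sum_mul]
        exact mul_le_mul_of_nonneg_right (pop_count _ W) (by positivity)
    _ = _ := by ring

open Classical in
lemma s2_count (l : ℕ) (W : V → Submodule F V) :
    ∑ p : Dual F V × V, (if 2 * (Fintype.card F : ℝ) * Xs l W p.1 ≤ Ph l W
        ∧ p.2 ≠ 0 ∧ finrank F (W p.2) < l ∧ p.1 p.2 = 0 then (1 : ℝ) else 0)
      ≤ 2 * (Fintype.card F : ℝ) ^ (finrank F V + 1) * 2 ^ finrank F V := by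
  set q : ℝ := (Fintype.card F : ℝ) with hq
  have hq1 : 1 ≤ q := one_le_q
  have hpos : 0 < 2 * q := by positivity
  have hpc := poor_count (F := F) (wt l W) _ (wt_nonneg l W) (wt_le l W) (wt_zero l W)
  apply le_of_mul_le_mul_right _ hpos
  rw [Fintype.sum_prod_type, sum_mul]
  calc _ ≤ ∑ a : Dual F V, (if 2 * q * Xs l W a ≤ Ph l W then (1 : ℝ) else 0) * Ph l W := by
        refine sum_le_sum (fun a _ => ?_)
        by_cases h1 : 2 * q * Xs l W a ≤ Ph l W
        · simp only [h1, true_and, if_true, one_mul]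
          have : ∑ v : V, (if v ≠ 0 ∧ finrank F (W v) < l ∧ a v = 0 then (1 : ℝ) else 0)
              ≤ Xs l W a := by
            unfold Xs
            refine sum_le_sum (fun v _ => ?_)
            by_cases h2 : v ≠ 0 ∧ finrank F (W v) < l ∧ a v = 0
            · rw [if_pos h2, if_pos h2.2.2]
              exact one_le_wt h2.1 h2.2.1
            · rw [if_neg h2]
              split_ifs
              exacts [wt_nonneg _ _ _, le_rfl]
          nlinarith
        · simp only [h1, false_and, if_false, sum_const_zero, zero_mul, le_refl]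
    _ ≤ 4 * q ^ (finrank F V + 2) * 2 ^ finrank F V := by
        rw [← sum_mul]
        exact hpc
    _ = _ := by ring

omit [Fintype F] in
open Classical in
lemma sum_om_le (g : Dual F V × V → ℝ) (hg : ∀ p, 0 ≤ g p) :
    ∑ y : Om F V, g y.1 ≤ ∑ p, g p := by
  rw [← sum_subtype (univ.filter (fun y : Dual F V × V => y.1 ≠ 0 ∧ y.2 ≠ 0 ∧ y.1 y.2 = 0))
    (by simp) g]
  exact sum_le_sum_of_subset_of_nonneg (subset_univ _) (fun p _ _ => hg p)

open Classical in
lemma card_om : (Fintype.card (Om F V) : ℝ) * (Fintype.card F : ℝ)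
    = ((Fintype.card F : ℝ) ^ finrank F V - 1)
      * ((Fintype.card F : ℝ) ^ finrank F V - (Fintype.card F : ℝ)) := by
  set q : ℝ := (Fintype.card F : ℝ) with hq
  have e1 : (Fintype.card (Om F V) : ℝ) = ∑ p : Dual F V × V,
      if p.1 ≠ 0 ∧ p.2 ≠ 0 ∧ p.1 p.2 = 0 then (1 : ℝ) else 0 := by
    rw [Fintype.card_subtype, sum_boole]
  rw [e1, Fintype.sum_prod_type_right, sum_mul]
  have e2 : ∀ v : V, (∑ a : Dual F V, if a ≠ 0 ∧ v ≠ 0 ∧ a v = 0 then (1 : ℝ) else 0) * q
      = (1 - if v = 0 then 1 else 0) * (q ^ finrank F V - q) := by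
    intro v
    by_cases hv : v = 0
    · simp [hv]
    · have e3 : ∀ a : Dual F V, (if a ≠ 0 ∧ v ≠ 0 ∧ a v = 0 then (1 : ℝ) else 0)
          = (if a v = 0 then (1 : ℝ) else 0) - (if a = 0 then 1 else 0) := by
        intro a
        by_cases ha : a = 0
        · simp [ha]
        · simp [ha, hv]
      simp only [e3]
      rw [sum_sub_distrib, sub_mul, n_one hv, ← hq]
      simp [hv]
  simp only [e2]
  rw [← sum_mul, sum_sub_distrib, card_V (F := F), ← hq]
  simp

/-- The potential. -/
noncomputable def Psi (h m τ : ℕ) (W : V → Submodule F V) : ℝ :=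
  ∏ i ∈ range m, (1 + Ph ((i + 1) * h) W) ^ τ

omit [Fintype F] [Fintype (Dual F V)] in
lemma one_le_Psi (h m τ : ℕ) (W : V → Submodule F V) : 1 ≤ Psi h m τ W :=
  one_le_prod (fun i _ => one_le_pow₀ (by linarith [Ph_nonneg ((i + 1) * h) W]))

omit [Fintype F] [Fintype (Dual F V)] in
lemma Psi_up_le (h m τ : ℕ) (W : V → Submodule F V) (y : Om F V) :
    Psi h m τ (up W y) ≤ Psi h m τ W :=
  prod_le_prod (fun i _ => pow_nonneg (by linarith [Ph_nonneg ((i + 1) * h) (up W y)]) _)
    (fun i _ => pow_le_pow_left₀ (by linarith [Ph_nonneg ((i + 1) * h) (up W y)])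
      (by linarith [Ph_up_le ((i + 1) * h) W y]) _)

omit [Fintype F] [Fintype (Dual F V)] in
lemma Psi_up_useful (h m τ : ℕ) (W : V → Submodule F V) (y : Om F V) (i : ℕ) (hi : i < m)
    (γ : ℝ) (hγ : 1 + Ph ((i + 1) * h) (up W y) ≤ γ * (1 + Ph ((i + 1) * h) W)) :
    Psi h m τ (up W y) ≤ γ ^ τ * Psi h m τ W := by
  unfold Psi
  rw [← mul_prod_erase _ _ (mem_range.2 hi), ← mul_prod_erase _ _ (mem_range.2 hi), ← mul_assoc,
    ← mul_pow]
  apply mul_le_mul
  · exact pow_le_pow_left₀ (by linarith [Ph_nonneg ((i + 1) * h) (up W y)]) hγ _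
  · exact prod_le_prod (fun i _ => pow_nonneg (by linarith [Ph_nonneg ((i + 1) * h) (up W y)]) _)
      (fun i _ => pow_le_pow_left₀ (by linarith [Ph_nonneg ((i + 1) * h) (up W y)])
        (by linarith [Ph_up_le ((i + 1) * h) W y]) _)
  · exact prod_nonneg (fun i _ => pow_nonneg (by linarith [Ph_nonneg ((i + 1) * h) (up W y)]) _)
  · exact pow_nonneg ((by linarith [Ph_nonneg ((i + 1) * h) (up W y)] :
      (0 : ℝ) ≤ 1 + Ph ((i + 1) * h) (up W y)).trans hγ) _

open Classical in
lemma step_bound (h m τ : ℕ) (hh : 1 ≤ h) (hm : finrank F V < m * h) (W : V → Submodule F V) :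
    ∑ y : Om F V, (if al W y then Psi h m τ (up W y) else 0)
      ≤ (m * (6 * 2 ^ finrank F V * (Fintype.card F : ℝ) ^ (finrank F V + h))
        + (1 - 1 / (16 * (Fintype.card F : ℝ))) ^ τ * Fintype.card (Om F V)) * Psi h m τ W := by
  set q : ℝ := (Fintype.card F : ℝ) with hq
  have hq1 : 1 ≤ q := one_le_q
  set γ : ℝ := 1 - 1 / (16 * q) with hγ
  have hγ0 : 0 ≤ γ := by
    rw [hγ, sub_nonneg, div_le_one (by positivity)]; linarith
  set g1 : ℕ → Dual F V × V → ℝ := fun i p => if (0 < Ph ((i + 1) * h) W ∧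
        Ph ((i + 1) * h) W ≤ 4 * q * Ys ((i + 1) * h) W p.2)
        ∧ i * h ≤ finrank F (W p.2) ∧ W p.2 ≤ LinearMap.ker p.1 then (1 : ℝ) else 0 with hg1
  set g2 : ℕ → Dual F V × V → ℝ := fun i p => if 2 * q * Xs ((i + 1) * h) W p.1 ≤ Ph ((i + 1) * h) W
        ∧ p.2 ≠ 0 ∧ finrank F (W p.2) < (i + 1) * h ∧ p.1 p.2 = 0 then (1 : ℝ) else 0 with hg2
  have g1n : ∀ i p, 0 ≤ g1 i p := fun i p => by simp only [hg1]; split_ifs <;> norm_num
  have g2n : ∀ i p, 0 ≤ g2 i p := fun i p => by simp only [hg2]; split_ifs <;> norm_num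
  have hP1 := one_le_Psi h m τ W
  have hy : ∀ y : Om F V, (if al W y then Psi h m τ (up W y) else 0)
      ≤ ((∑ i ∈ range m, (g1 i y.1 + g2 i y.1)) + γ ^ τ) * Psi h m τ W := by
    intro y
    have hs0 : 0 ≤ ∑ i ∈ range m, (g1 i y.1 + g2 i y.1) :=
      sum_nonneg (fun i _ => add_nonneg (g1n _ _) (g2n _ _))
    have hγτ : 0 ≤ γ ^ τ := pow_nonneg hγ0 _
    by_cases hal : al W y
    · rw [if_pos hal]
      set i := finrank F (W y.1.2) / h with hi
      have hi1 : i * h ≤ finrank F (W y.1.2) := Nat.div_mul_le_self _ _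
      have hi2 : finrank F (W y.1.2) < (i + 1) * h := by
        rw [mul_comm]; exact Nat.lt_mul_div_succ _ hh
      have him : i < m := by
        have := Submodule.finrank_le (W y.1.2)
        exact lt_of_mul_lt_mul_right (a := h) (by omega) (Nat.zero_le _)
      have hsingle : g1 i y.1 + g2 i y.1 ≤ ∑ i ∈ range m, (g1 i y.1 + g2 i y.1) :=
        single_le_sum (f := fun i => g1 i y.1 + g2 i y.1)
          (fun i _ => add_nonneg (g1n _ _) (g2n _ _)) (mem_range.2 him)
      have hPh1 : 1 ≤ Ph ((i + 1) * h) W :=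
        (one_le_wt y.2.2.1 hi2).trans (single_le_sum (f := fun b => wt ((i + 1) * h) W b)
          (fun b _ => wt_nonneg _ _ _) (mem_univ _))
      have hle := Psi_up_le h m τ W y
      by_cases c1 : Ph ((i + 1) * h) W ≤ 4 * q * Ys ((i + 1) * h) W y.1.2
      · have : g1 i y.1 = 1 := by
          simp only [hg1]
          rw [if_pos ⟨⟨by linarith, c1⟩, hi1, hal⟩]
        have := g2n i y.1
        nlinarith
      · by_cases c2 : 2 * q * Xs ((i + 1) * h) W y.1.1 ≤ Ph ((i + 1) * h) W
        · have : g2 i y.1 = 1 := by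
            simp only [hg2]
            rw [if_pos ⟨c2, y.2.2.1, hi2, y.2.2.2⟩]
          have := g1n i y.1
          nlinarith
        · have hu := Ph_up ((i + 1) * h) W y
          have : 1 + Ph ((i + 1) * h) (up W y) ≤ γ * (1 + Ph ((i + 1) * h) W) := by
            have e : γ * (1 + Ph ((i + 1) * h) W)
                = 1 + Ph ((i + 1) * h) W - (1 + Ph ((i + 1) * h) W) / (16 * q) := by
              rw [hγ]; ring
            have e2 : (1 + Ph ((i + 1) * h) W) / (16 * q)
                ≤ (Xs ((i + 1) * h) W y.1.1 - Ys ((i + 1) * h) W y.1.2) / 2 := by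
              rw [div_le_iff₀ (by positivity)]
              nlinarith
            rw [e]; linarith
          have h2 := Psi_up_useful h m τ W y i him γ this
          nlinarith
    · rw [if_neg hal]
      positivity
  refine (sum_le_sum (fun y _ => hy y)).trans ?_
  rw [← sum_mul]
  apply mul_le_mul_of_nonneg_right _ (by linarith)
  rw [sum_add_distrib, sum_const, card_univ, nsmul_eq_mul, mul_comm _ (γ ^ τ), sum_comm]
  refine add_le_add ?_ le_rfl
  calc _ ≤ ∑ _i ∈ range m, (6 * 2 ^ finrank F V * q ^ (finrank F V + h)) := by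
        refine sum_le_sum (fun i _ => ?_)
        rw [sum_add_distrib]
        have a1 := (sum_om_le (g1 i) (g1n i)).trans (s1_count i h W)
        have a2 := (sum_om_le (g2 i) (g2n i)).trans (s2_count ((i + 1) * h) W)
        have a3 : q ^ (finrank F V + 1) ≤ q ^ (finrank F V + h) :=
          pow_le_pow_right₀ hq1 (by omega)
        have a4 : (1 : ℝ) ≤ 2 ^ finrank F V := one_le_pow₀ (by norm_num)
        have a5 : 0 ≤ q ^ (finrank F V + h) := by positivity
        rw [← hq] at a1 a2
        nlinarith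
    _ = _ := by simp

end Pot

end Pool.Agent.Lib.MP_05c1d7_co
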