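import Pool.Agent.Lib.MP_05c1d7_co.Main

/-!
The diagonal conjecture holds at an explicit positive share of the pairs on each antidiagonal.
-/

namespace Pool.Agent.Lib.MP_05c1d7_co
open Finset

/-- The first moment bound. -/
lemma not_arr_diag {n k : ℕ} (h : 2 * n.choose k < 2 ^ k.choose 2) : ¬ Arr n k k := by
  classical
  intro hA
  set E : Finset (Fin n) → Finset (Sym2 (Fin n)) := fun K => K.offDiag.image Sym2.mk.uncurry
    with hE
  set B : Finset (Fin n) × Bool → Finset (Sym2 (Fin n) → Bool) := fun p =>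
    Fintype.piFinset fun e => if e ∈ E p.1 then {p.2} else univ with hB
  set m := Fintype.card (Sym2 (Fin n)) with hm
  have hcard : ∀ p ∈ (powersetCard k univ) ×ˢ (univ : Finset Bool),
      (B p).card * 2 ^ k.choose 2 = 2 ^ m := by
    intro p hp
    have h1 : (E p.1).card = k.choose 2 := by
      rw [hE, Sym2.card_image_offDiag, (mem_powersetCard.1 (mem_product.1 hp).1).2]
    have h2 : ∀ e, (if e ∈ E p.1 then ({p.2} : Finset Bool) else univ).card *
        (if e ∈ E p.1 then 2 else 1) = 2 := fun e => by split_ifs <;> simp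
    have h3 : 2 ^ k.choose 2 = ∏ e, if e ∈ E p.1 then 2 else 1 := by
      rw [prod_ite_mem, univ_inter, prod_const, h1]
    rw [hB, Fintype.card_piFinset, h3, ← prod_mul_distrib]
    simp only [h2, prod_const, card_univ, hm]
  have hcov : (univ : Finset (Sym2 (Fin n) → Bool)) ⊆
      ((powersetCard k univ) ×ˢ (univ : Finset Bool)).biUnion B := by
    intro f _
    have key : ∀ (K : Finset (Fin n)) (b : Bool), K.card = k →
        (∀ u ∈ K, ∀ v ∈ K, u ≠ v → f s(u, v) = b) →
        f ∈ ((powersetCard k univ) ×ˢ (univ : Finset Bool)).biUnion B := by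
      intro K b hK hb
      refine mem_biUnion.2 ⟨(K, b), mem_product.2 ⟨mem_powersetCard.2 ⟨subset_univ _, hK⟩,
        mem_univ _⟩, Fintype.mem_piFinset.2 fun e => ?_⟩
      split_ifs with he
      · obtain ⟨⟨u, v⟩, huv, rfl⟩ := mem_image.1 he
        obtain ⟨h1, h2, h3⟩ := mem_offDiag.1 huv
        exact mem_singleton.2 (hb u h1 v h2 h3)
      · exact mem_univ _
    rcases hA (SimpleGraph.fromEdgeSet {e | f e = true}) with h1 | h1
    · obtain ⟨K, hK⟩ := not_forall.1 h1
      rw [not_not] at hK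
      exact key K true hK.2 fun u hu v hv huv => (hK.1 hu hv huv).1
    · obtain ⟨K, hK⟩ := not_forall.1 h1
      rw [not_not] at hK
      refine key K false hK.2 fun u hu v hv huv => ?_
      have h2 := ((SimpleGraph.compl_adj _ _ _).1 (hK.1 hu hv huv)).2
      rw [SimpleGraph.fromEdgeSet_adj] at h2
      simpa [huv] using h2
  have h1 := (card_le_card hcov).trans card_biUnion_le
  have h2 := Nat.mul_le_mul_right (2 ^ k.choose 2) h1
  rw [sum_mul, sum_congr rfl hcard, sum_const, card_product, card_powersetCard] at h2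
  simp only [card_univ, Fintype.card_fun, Fintype.card_bool, Fintype.card_fin, smul_eq_mul,
    ← hm] at h2
  have h3 : 0 < 2 ^ m := by positivity
  nlinarith

lemma two_pow_lt_R {k : ℕ} (hk : 3 ≤ k) : 2 ^ ((k - 2) / 2) < R k k := by
  refine lt_R_of_not_arr (by omega) (by omega) (not_arr_diag ?_)
  have h1 : 2 * k.choose 2 = k * (k - 1) := by
    rw [Nat.choose_two_right]
    exact Nat.mul_div_cancel' (Nat.even_mul_pred_self k).two_dvd
  obtain ⟨u, rfl⟩ : ∃ u, k = u + 3 := ⟨k - 3, by omega⟩
  have h2 : 2 * ((u + 3 - 2) / 2) ≤ u + 1 := by omega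
  have h3 : u + 3 - 1 = u + 2 := by omega
  rw [h3] at h1
  calc _ ≤ 2 * (2 ^ ((u + 3 - 2) / 2)) ^ (u + 3) :=
        Nat.mul_le_mul_left _ (Nat.choose_le_pow _ _)
    _ = 2 ^ ((u + 3 - 2) / 2 * (u + 3) + 1) := by rw [← pow_mul, pow_succ, mul_comm]
    _ < _ := Nat.pow_lt_pow_right (by norm_num) (by nlinarith)

lemma choose_le_sum (N i j : ℕ) (h : i ≤ j) : N.choose i ≤ ∑ l ∈ range (j + 1), N.choose l :=
  single_le_sum (f := fun l => N.choose l) (fun _ _ => Nat.zero_le _) (mem_range.2 (by omega))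

open Classical in
lemma share_all (N : ℕ) (hN : 6 ≤ N) : (N / 2 - 2) / 2 <
    22 * (N / 510 + 1) + 9 * ((Icc 1 (N / 2)).filter fun s => DiagAt s (N - s)).card := by
  set w := N / 510 + 1 with hw
  have hNw : N ≤ w * 510 := by omega
  have hsum : ∀ t, t ≤ N → ∑ l ∈ range (w + 1), t.choose l ≤ 2 ^ (11 * w) := fun t ht => by
    refine (sum_choose_le t w 510 w (by norm_num) (by omega)).trans ?_
    rw [← mul_pow, pow_mul]
    exact Nat.pow_le_pow_left (by norm_num) _
  have h11 : 2 ^ (11 * w) ≤ 2 ^ (22 * w) := Nat.pow_le_pow_right (by norm_num) (by omega)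
  have hrec := records (fun s => R s (N - s)) w (N / 2) (2 ^ (22 * w)) (2 ^ 9) Nat.one_le_two_pow
    (by
      intro s h1 h2
      obtain ⟨u, rfl⟩ : ∃ u, s = u + 1 := ⟨s - 1, by omega⟩
      obtain ⟨v, hv⟩ : ∃ v, N - (u + 1) = v + 1 := ⟨N - (u + 1) - 1, by omega⟩
      show R (u + 1) (N - (u + 1)) ≤ _
      rw [hv]
      exact (R_le_choose u v).trans ((choose_le_sum _ u w (by omega)).trans
        ((hsum _ (by omega)).trans h11)))
    (by omega)
    (by
      intro s g h1 h2 hg hf
      have hr := ratio_R (s := s) (t := N - (s + 1)) w (by omega) (by omega)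
      have a1 : R s (N - (s + 1)) ≤ g :=
        (R_mono_right (by omega) (by omega) (by omega)).trans hf
      have a2 : N - (s + 1) ≤ (w + 1) * 510 := by omega
      have a3 : 1 + (N - (s + 1)) ≤ g := by
        have b1 : 22 * w < 2 ^ (22 * w) := Nat.lt_two_pow_self
        have b2 : w < 2 ^ w := Nat.lt_two_pow_self
        calc 1 + (N - (s + 1)) ≤ 2 ^ w * 2 ^ 9 := by omega
          _ = 2 ^ (w + 9) := (pow_add _ _ _).symm
          _ ≤ 2 ^ (22 * w) := Nat.pow_le_pow_right (by norm_num) (by omega)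
          _ ≤ g := hg
      have a4 : (s + w).choose s * ∑ i ∈ range (w + 1), (N - (s + 1)).choose i ≤ g := by
        have b1 : (s + w).choose s ≤ 2 ^ (11 * w) := by
          rw [Nat.choose_symm_add]
          exact (choose_le_sum _ w w le_rfl).trans (hsum _ (by omega))
        calc _ ≤ 2 ^ (11 * w) * 2 ^ (11 * w) := Nat.mul_le_mul b1 (hsum _ (by omega))
          _ = 2 ^ (22 * w) := by rw [← pow_add]; congr 1; omega
          _ ≤ g := hg
      apply le_of_mul_le_mul_left (a := w + 1) _ (Nat.succ_pos w)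
      calc _ ≤ _ := hr
        _ ≤ (w + 1) * (g + g) + (w + 1) * 510 * g :=
            Nat.add_le_add (Nat.mul_le_mul_left _ (Nat.add_le_add a3 a4)) (Nat.mul_le_mul a2 a1)
        _ = _ := by ring)
    (fun s => DiagAt s (N - s))
    (fun s _ h2 h => diagAt_of_record (by omega) h) (N / 2) le_rfl (N / 2) (by omega) le_rfl
  rw [← pow_mul, ← pow_add] at hrec
  have h1 := (two_pow_lt_R (k := N / 2) (by omega)).trans_le
    ((R_mono_right (by omega) (by omega) (by omega)).trans hrec)
  exact (Nat.pow_lt_pow_iff_right (by norm_num : 1 < 2)).1 h1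

open Classical in
/-- At least one pair in 24 on each antidiagonal, with bounded ratio. -/
theorem share (N : ℕ) :
    N ≤ 48 * (((Icc (N / 510 + 1) (N / 2)).filter fun s => DiagAt s (N - s)).card + 3) := by
  by_cases hN : N < 6
  · omega
  have h1 := share_all N (by omega)
  have h2 : ((Icc 1 (N / 2)).filter fun s => DiagAt s (N - s)).card ≤
      N / 510 + ((Icc (N / 510 + 1) (N / 2)).filter fun s => DiagAt s (N - s)).card := by
    have h3 : ((Icc 1 (N / 2)).filter fun s => DiagAt s (N - s)) ⊆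
        Icc 1 (N / 510) ∪ (Icc (N / 510 + 1) (N / 2)).filter fun s => DiagAt s (N - s) := by
      intro s hs
      simp only [mem_filter, mem_Icc, mem_union] at hs ⊢
      by_cases h : s ≤ N / 510
      · exact Or.inl ⟨hs.1.1, h⟩
      · exact Or.inr ⟨⟨by omega, hs.1.2⟩, hs.2⟩
    have h4 := (card_le_card h3).trans (card_union_le _ _)
    simpa using h4
  omega

end Pool.Agent.Lib.MP_05c1d7_co
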